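import Mathlib

set_option linter.unusedSectionVars false

/-!
Let a finite group `G` act on a finite alphabet `A` with a fixed letter `z`. For every subgroup `H`
the quotient of the Hamming space `A^Ω` by the diagonal action of `H` embeds into a finite
dimensional `ℓ_1` space with distortion bounded independently of `Ω`.
-/

namespace Pool.Agent.MP_12e089_an

open Finset

/-- The `ℓ_1` distance. -/
def l1 {I : Type} [Fintype I] (u v : I → ℝ) : ℝ := ∑ i, |u i - v i|

lemma l1_nonneg {I : Type} [Fintype I] (u v : I → ℝ) : 0 ≤ l1 u v :=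
  Finset.sum_nonneg fun _ _ => abs_nonneg _

lemma l1_comm {I : Type} [Fintype I] (u v : I → ℝ) : l1 u v = l1 v u := by
  unfold l1
  exact Finset.sum_congr rfl fun i _ => abs_sub_comm _ _

lemma l1_triangle {I : Type} [Fintype I] (u v w : I → ℝ) : l1 u w ≤ l1 u v + l1 v w := by
  unfold l1
  rw [← Finset.sum_add_distrib]
  exact Finset.sum_le_sum fun i _ => abs_sub_le _ _ _

lemma l1_sub_right {I : Type} [Fintype I] (u v w : I → ℝ) : l1 (u - w) (v - w) = l1 u v := by
  unfold l1
  refine Finset.sum_congr rfl fun i _ => ?_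
  simp

lemma l1_scale {I : Type} [Fintype I] (p q : ℝ) (u v : I → ℝ) :
    l1 (fun i => p * u i) (fun i => q * v i) ≤ |p| * l1 u v + |p - q| * l1 v 0 := by
  unfold l1
  rw [Finset.mul_sum, Finset.mul_sum, ← Finset.sum_add_distrib]
  refine Finset.sum_le_sum fun i _ => ?_
  have h : p * u i - q * v i = p * (u i - v i) + (p - q) * (v i - 0) := by ring
  rw [h, ← abs_mul, ← abs_mul]
  exact abs_add_le _ _

lemma l1_scale_lower {I : Type} [Fintype I] (p q : ℝ) (hp : 0 < p) (u v : I → ℝ) :
    l1 u v ≤ (1 / p) * (l1 (fun i => p * u i) (fun i => q * v i) + |p - q| * l1 v 0) := by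
  have h : p * l1 u v ≤ l1 (fun i => p * u i) (fun i => q * v i) + |p - q| * l1 v 0 := by
    unfold l1
    rw [Finset.mul_sum, Finset.mul_sum, ← Finset.sum_add_distrib]
    refine Finset.sum_le_sum fun i _ => ?_
    have h1 : p * (u i - v i) = (p * u i - q * v i) + (-((p - q) * (v i - 0))) := by ring
    calc p * |u i - v i| = |p * (u i - v i)| := by rw [abs_mul, abs_of_pos hp]
      _ = |(p * u i - q * v i) + (-((p - q) * (v i - 0)))| := by rw [h1]
      _ ≤ |p * u i - q * v i| + |(-((p - q) * (v i - 0)))| := abs_add_le _ _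
      _ = |p * u i - q * v i| + |p - q| * |v i - 0| := by rw [abs_neg, abs_mul]
  rw [one_div, ← div_eq_inv_mul, le_div_iff₀ hp]
  linarith

variable {G A : Type} [Group G] [Fintype A] [DecidableEq A] [MulAction G A]

/-- The quotient by `H` embeds into `ℓ_1` with constant `C`, uniformly in the index set. -/
def Good (H : Subgroup G) (z : A) (C : ℝ) : Prop :=
  ∀ (Ω : Type) [Fintype Ω], ∃ (I : Type) (_ : Fintype I) (F : (Ω → A) → I → ℝ),
    (∀ h ∈ H, ∀ X, F (h • X) = F X) ∧ F (fun _ => z) = 0 ∧
    (∀ X Y, l1 (F X) (F Y) ≤ C * hammingDist X Y) ∧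
    (∀ X Y, ∃ h ∈ H, (hammingDist X (h • Y) : ℝ) ≤ C * l1 (F X) (F Y))

lemma Good.mono {H : Subgroup G} {z : A} {C D : ℝ} (h : Good H z C) (hCD : C ≤ D) :
    Good H z D := by
  intro Ω _
  obtain ⟨I, hI, F, h1, h2, h3, h4⟩ := h Ω
  refine ⟨I, hI, F, h1, h2, ?_, ?_⟩
  · intro X Y
    exact (h3 X Y).trans (mul_le_mul_of_nonneg_right hCD (Nat.cast_nonneg _))
  · intro X Y
    obtain ⟨g, hg, h5⟩ := h4 X Y
    exact ⟨g, hg, h5.trans (mul_le_mul_of_nonneg_right hCD (l1_nonneg _ _))⟩

/-- A set of representatives of the orbits. -/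
lemma exists_rep (H : Subgroup G) : ∃ (rep : A → A) (t : A → G), (∀ a, t a ∈ H) ∧
    (∀ a, t a • a = rep a) ∧ (∀ h ∈ H, ∀ a, rep (h • a) = rep a) := by
  classical
  let s : Setoid A := MulAction.orbitRel H A
  have h1 : ∀ a : A, ∃ h : H, h • a = Quotient.out (Quotient.mk s a) := by
    intro a
    have : s (Quotient.out (Quotient.mk s a)) a := Quotient.mk_out (s := s) a
    exact MulAction.mem_orbit_iff.1 (MulAction.orbitRel_apply.1 this)
  choose t ht using h1
  refine ⟨fun a => Quotient.out (Quotient.mk s a), fun a => (t a : G), fun a => (t a).2, ?_, ?_⟩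
  · intro a
    exact ht a
  · intro h hh a
    have : Quotient.mk s (h • a) = Quotient.mk s a := by
      apply Quotient.sound
      exact MulAction.orbitRel_apply.2 (MulAction.mem_orbit_iff.2 ⟨⟨h, hh⟩, rfl⟩)
    simp only [this]

/-- A letter fixed by `H`. -/
def Fx (H : Subgroup G) (a : A) : Prop := ∀ h ∈ H, h • a = a

lemma Fx.smul {H : Subgroup G} {a : A} {h : G} (hh : h ∈ H) : Fx H (h • a) ↔ Fx H a := by
  constructor
  · intro h1
    have h2 := h1 h⁻¹ (H.inv_mem hh)
    rw [inv_smul_smul] at h2
    rw [h2]
    exact h1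
  · intro h1
    rw [h1 h hh]
    exact h1

open Classical in
/-- Replace the letters fixed by `H` by the letter `z`. -/
noncomputable def col (H : Subgroup G) (z : A) {Ω : Type} (X : Ω → A) : Ω → A :=
  fun w => if Fx H (X w) then z else X w

open Classical in
/-- The number of letters which are not fixed. -/
noncomputable def cnt (H : Subgroup G) {Ω : Type} [Fintype Ω] (X : Ω → A) : ℕ :=
  (Finset.univ.filter fun w => ¬ Fx H (X w)).card

section
variable {Ω : Type} [Fintype Ω]

lemma ham_le_of_imp {B : Type} [DecidableEq B] {X Y : Ω → A} {X' Y' : Ω → B}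
    (h : ∀ w, X w = Y w → X' w = Y' w) : hammingDist X' Y' ≤ hammingDist X Y := by
  unfold hammingDist
  apply Finset.card_le_card
  intro w hw
  simp only [Finset.mem_filter, Finset.mem_univ, true_and] at hw ⊢
  exact fun h1 => hw (h w h1)

lemma ham_smul (g : G) (X Y : Ω → A) : hammingDist (g • X) (g • Y) = hammingDist X Y := by
  apply le_antisymm
  · exact ham_le_of_imp (fun w h => by simp [Pi.smul_apply, h])
  · exact ham_le_of_imp (fun w h => by simpa [Pi.smul_apply] using h)

lemma ham_col (H : Subgroup G) (z : A) (X Y : Ω → A) :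
    hammingDist (col H z X) (col H z Y) ≤ hammingDist X Y :=
  ham_le_of_imp (fun w h => by simp only [col]; rw [h])

lemma ham_col_z (H : Subgroup G) (z : A) (X : Ω → A) :
    hammingDist (col H z X) (fun _ => z) ≤ cnt H X := by
  classical
  unfold hammingDist cnt
  apply Finset.card_le_card
  intro w hw
  simp only [Finset.mem_filter, Finset.mem_univ, true_and] at hw ⊢
  intro h1
  apply hw
  simp [col, h1]

lemma cnt_smul {H : Subgroup G} {h : G} (hh : h ∈ H) (X : Ω → A) :
    cnt H (h • X) = cnt H X := by
  classical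
  unfold cnt
  congr 1
  ext w
  simp only [Finset.mem_filter, Finset.mem_univ, true_and, Pi.smul_apply, Fx.smul hh]

lemma col_smul {H : Subgroup G} {z : A} (hz : ∀ g : G, g • z = z) {h : G} (hh : h ∈ H)
    (X : Ω → A) : col H z (h • X) = h • col H z X := by
  classical
  ext w
  simp only [col, Pi.smul_apply, Fx.smul hh]
  split_ifs with h1
  · rw [hz]
  · rfl

end

/-- The recursive construction. -/
theorem good_step (H : Subgroup G) (z : A) (hz : ∀ g : G, g • z = z) (C : ℝ) (hC : 1 ≤ C)
    (ih : ∀ a : A, ¬ Fx H a → Good (H ⊓ MulAction.stabilizer G a) z C) :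
    Good H z (C ^ 2 + 4 * C + 2) := by
  classical
  intro Ω _
  obtain ⟨rep, t, htH, htr, hrep⟩ := exists_rep (A := A) H
  -- representatives of non-fixed letters are non-fixed
  have hrfx : ∀ a, Fx H (rep a) ↔ Fx H a := fun a => by rw [← htr a]; exact Fx.smul (htH a)
  have hfxrep : ∀ a, Fx H a → rep a = a := fun a h => by rw [← htr a]; exact h _ (htH a)
  have hch : ∀ α : A, ∃ (I : Type) (_ : Fintype I) (F : (Ω → A) → I → ℝ), ¬ Fx H α →
      (∀ h ∈ H ⊓ MulAction.stabilizer G α, ∀ X, F (h • X) = F X) ∧ F (fun _ => z) = 0 ∧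
      (∀ X Y, l1 (F X) (F Y) ≤ C * hammingDist X Y) ∧
      (∀ X Y, ∃ h ∈ H ⊓ MulAction.stabilizer G α,
        (hammingDist X (h • Y) : ℝ) ≤ C * l1 (F X) (F Y)) := by
    intro α
    by_cases h : Fx H α
    · exact ⟨PUnit, inferInstance, fun _ _ => 0, fun h' => absurd h h'⟩
    · obtain ⟨I, hI, F, h1⟩ := ih α h Ω
      exact ⟨I, hI, F, fun _ => h1⟩
  choose I instI F hF using hch
  -- the two kinds of coordinates
  let P : (Ω → A) → (w : Ω) → (α : A) → I α → ℝ := fun X w α i =>
    if ¬ Fx H (X w) ∧ rep (X w) = α then (1 / (cnt H X : ℝ)) * F α (t (X w) • col H z X) i else 0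
  let J : Type := (Ω × A) ⊕ ((p : Ω × A) × I p.2)
  let FH : (Ω → A) → J → ℝ := fun X j => match j with
    | Sum.inl (w, α) => if rep (X w) = α then 1 else 0
    | Sum.inr ⟨(w, α), i⟩ => P X w α i
  have hJ : ∀ X Y, l1 (FH X) (FH Y) = (∑ w, ∑ α : A, |(if rep (X w) = α then (1 : ℝ) else 0) -
      (if rep (Y w) = α then (1 : ℝ) else 0)|) + ∑ w, ∑ α, l1 (P X w α) (P Y w α) := by
    intro X Y
    unfold l1
    rw [Fintype.sum_sum_type, Fintype.sum_prod_type, Fintype.sum_sigma, Fintype.sum_prod_type]
  have hS0 : ∀ (X Y : Ω → A) (w : Ω), (∑ α : A, |(if rep (X w) = α then (1 : ℝ) else 0) -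
      (if rep (Y w) = α then (1 : ℝ) else 0)|) = if rep (X w) = rep (Y w) then 0 else 2 := by
    intro X Y w
    by_cases h : rep (X w) = rep (Y w)
    · simp [h]
    · simp only [h, if_false]
      have h1 : ∀ α : A, |(if rep (X w) = α then (1 : ℝ) else 0) -
          (if rep (Y w) = α then (1 : ℝ) else 0)| = (if rep (X w) = α then (1 : ℝ) else 0) +
          (if rep (Y w) = α then (1 : ℝ) else 0) := by
        intro α
        by_cases h2 : rep (X w) = α
        · have h3 : rep (Y w) ≠ α := fun h3 => h (h2.trans h3.symm)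
          simp [h2, h3]
        · by_cases h3 : rep (Y w) = α
          · simp [h2, h3]
          · simp [h2, h3]
      rw [Finset.sum_congr rfl fun α _ => h1 α, Finset.sum_add_distrib]
      simp
      norm_num
  -- `P` at a fixed letter vanishes
  have hPfx : ∀ X w α, Fx H (X w) → P X w α = 0 := by
    intro X w α h
    ext i
    simp [P, h]
  have hPne : ∀ X w α, rep (X w) ≠ α → P X w α = 0 := by
    intro X w α h
    ext i
    simp [P, h]
  have hPeq : ∀ X w, ¬ Fx H (X w) → P X w (rep (X w)) =
      fun i => (1 / (cnt H X : ℝ)) * F (rep (X w)) (t (X w) • col H z X) i := by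
    intro X w h
    ext i
    simp [P, h]
  have hcpos : ∀ (X : Ω → A) w, ¬ Fx H (X w) → 0 < cnt H X := by
    intro X w h
    unfold cnt
    apply Finset.card_pos.2
    exact ⟨w, by simp [h]⟩
  -- norm bound for the recursive functions
  have hnorm : ∀ (X : Ω → A) (α : A) (g : G), ¬ Fx H α → l1 (F α (g • col H z X)) 0 ≤ C * cnt H X := by
    intro X α g hα
    obtain ⟨-, h2, h3, -⟩ := hF α hα
    have h4 := h3 (g • col H z X) (fun _ => z)
    rw [h2] at h4
    refine h4.trans (mul_le_mul_of_nonneg_left ?_ (by linarith))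
    have h5 : (fun _ : Ω => z) = g • (fun _ : Ω => z) := by
      ext w; simp [Pi.smul_apply, hz]
    rw [h5, ham_smul]
    exact_mod_cast ham_col_z H z X
  have hPnorm : ∀ X w, ∑ α, l1 (P X w α) 0 ≤ C := by
    intro X w
    by_cases h : Fx H (X w)
    · have : ∑ α, l1 (P X w α) 0 = 0 := by
        apply Finset.sum_eq_zero
        intro α _
        rw [hPfx X w α h]
        simp [l1]
      rw [this]; linarith
    · rw [Finset.sum_eq_single (rep (X w))]
      · rw [hPeq X w h]
        have h1 : l1 (fun i => (1 / (cnt H X : ℝ)) * F (rep (X w)) (t (X w) • col H z X) i) 0 =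
            (1 / (cnt H X : ℝ)) * l1 (F (rep (X w)) (t (X w) • col H z X)) 0 := by
          unfold l1
          rw [Finset.mul_sum]
          refine Finset.sum_congr rfl fun i _ => ?_
          simp [abs_mul]
        rw [h1]
        have hc : (0 : ℝ) < cnt H X := by exact_mod_cast hcpos X w h
        have h2 := hnorm X (rep (X w)) (t (X w)) (by rwa [hrfx])
        rw [one_div, ← div_eq_inv_mul, div_le_iff₀ hc]
        exact h2
      · intro α _ hα
        rw [hPne X w α hα.symm]
        simp [l1]
      · intro h1; exact absurd (Finset.mem_univ _) h1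
  have hcntdiff : ∀ X Y : Ω → A, |(cnt H X : ℝ) - cnt H Y| ≤
      ((Finset.univ.filter fun w => rep (X w) ≠ rep (Y w)).card : ℝ) := by
    have key : ∀ X Y : Ω → A, cnt H X ≤ cnt H Y +
        (Finset.univ.filter fun w => rep (X w) ≠ rep (Y w)).card := by
      intro X Y
      unfold cnt
      rw [← Finset.card_union_add_card_inter]
      refine le_trans (Finset.card_le_card ?_) (Nat.le_add_right _ _)
      intro w hw
      simp only [Finset.mem_filter, Finset.mem_univ, true_and, Finset.mem_union] at hw ⊢
      by_cases h : rep (X w) = rep (Y w)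
      · left
        rw [← hrfx, ← h, hrfx]
        exact hw
      · right; exact h
    intro X Y
    have h1 := key X Y
    have h2 := key Y X
    have h3 : (Finset.univ.filter fun w => rep (Y w) ≠ rep (X w)) =
        (Finset.univ.filter fun w => rep (X w) ≠ rep (Y w)) := by
      ext w; simp [ne_comm]
    rw [h3] at h2
    rw [abs_le]
    have h1' : (cnt H X : ℝ) ≤ cnt H Y +
        ((Finset.univ.filter fun w => rep (X w) ≠ rep (Y w)).card : ℝ) := by exact_mod_cast h1
    have h2' : (cnt H Y : ℝ) ≤ cnt H X +
        ((Finset.univ.filter fun w => rep (X w) ≠ rep (Y w)).card : ℝ) := by exact_mod_cast h2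
    constructor <;> linarith
  have hBham : ∀ X Y : Ω → A, (Finset.univ.filter fun w => rep (X w) ≠ rep (Y w)).card ≤
      hammingDist X Y := by
    intro X Y
    unfold hammingDist
    apply Finset.card_le_card
    intro w hw
    simp only [Finset.mem_filter, Finset.mem_univ, true_and] at hw ⊢
    exact fun h => hw (by rw [h])
  refine ⟨J, inferInstance, fun X => FH X - FH (fun _ => z), ?_, ?_, ?_, ?_⟩
  · -- invariance
    intro h hh X
    have : FH (h • X) = FH X := by
      ext j
      rcases j with ⟨w, α⟩ | ⟨⟨w, α⟩, i⟩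
      · simp only [FH, Pi.smul_apply, hrep h hh]
      · simp only [FH, P, Pi.smul_apply, hrep h hh, Fx.smul hh, cnt_smul hh, col_smul hz hh]
        by_cases hc : ¬ Fx H (X w) ∧ rep (X w) = α
        · simp only [hc, not_false_eq_true, and_self, if_true]
          obtain ⟨hc1, rfl⟩ := hc
          obtain ⟨hinv, -⟩ := hF (rep (X w)) (by rwa [hrfx])
          have hmem : t (h • X w) * h * (t (X w))⁻¹ ∈ H ⊓ MulAction.stabilizer G (rep (X w)) := by
            refine Subgroup.mem_inf.2
              ⟨H.mul_mem (H.mul_mem (htH _) hh) (H.inv_mem (htH _)), ?_⟩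
            rw [MulAction.mem_stabilizer_iff, mul_smul, mul_smul]
            have e1 : (t (X w))⁻¹ • rep (X w) = X w := by rw [← htr (X w), inv_smul_smul]
            rw [e1, htr, hrep h hh]
          have e2 := hinv _ hmem (t (X w) • col H z X)
          have e3 : (t (h • X w) * h * (t (X w))⁻¹) • (t (X w) • col H z X) =
              t (h • X w) • (h • col H z X) := by
            rw [mul_smul, mul_smul, inv_smul_smul]
          rw [e3] at e2
          rw [e2]
        · rw [if_neg hc, if_neg hc]
    simp only [this]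
  · simp
  · -- Lipschitz
    intro X Y
    rw [l1_sub_right, hJ]
    set δ : ℝ := (hammingDist X Y : ℝ) with hδ
    have hδ0 : 0 ≤ δ := Nat.cast_nonneg _
    have hδ' : ((Finset.univ.filter fun w => X w ≠ Y w).card : ℝ) = δ := rfl
    have h1 : (∑ w, ∑ α : A, |(if rep (X w) = α then (1 : ℝ) else 0) -
        (if rep (Y w) = α then (1 : ℝ) else 0)|) ≤ 2 * δ := by
      have : ∀ w, (∑ α : A, |(if rep (X w) = α then (1 : ℝ) else 0) -
        (if rep (Y w) = α then (1 : ℝ) else 0)|) ≤ if X w ≠ Y w then 2 else 0 := by
        intro w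
        rw [hS0]
        by_cases h : X w = Y w
        · simp [h]
        · simp only [ne_eq, h, not_false_eq_true, if_true]
          split_ifs <;> norm_num
      refine (Finset.sum_le_sum fun w _ => this w).trans ?_
      rw [← Finset.sum_filter, Finset.sum_const, nsmul_eq_mul, hδ']
      linarith
    have hcd : |(cnt H X : ℝ) - cnt H Y| ≤ δ :=
      (hcntdiff X Y).trans (Nat.cast_le.2 (hBham X Y))
    have h2 : ∀ w, (∑ α, l1 (P X w α) (P Y w α)) ≤
        (if X w ≠ Y w then 2 * C else 0) +
        (if ¬ Fx H (X w) then 2 * C * δ * (1 / (cnt H X : ℝ)) else 0) := by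
      intro w
      by_cases h : X w = Y w
      · by_cases hf : Fx H (X w)
        · have : (∑ α, l1 (P X w α) (P Y w α)) = 0 := by
            apply Finset.sum_eq_zero
            intro α _
            rw [hPfx X w α hf, hPfx Y w α (by rwa [← h])]
            simp [l1]
          rw [this, if_neg (by simpa using h), if_neg (by simpa using hf)]
          simp
        · have hfY : ¬ Fx H (Y w) := by rwa [← h]
          have hrXY : rep (X w) = rep (Y w) := by rw [h]
          rw [Finset.sum_eq_single (rep (X w))]
          · rw [hPeq X w hf]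
            have hPY : P Y w (rep (X w)) =
                fun i => (1 / (cnt H Y : ℝ)) * F (rep (X w)) (t (X w) • col H z Y) i := by
              rw [hrXY, hPeq Y w hfY, h]
            rw [hPY]
            have ha : (0 : ℝ) < cnt H X := by exact_mod_cast hcpos X w hf
            have hb : (0 : ℝ) < cnt H Y := by exact_mod_cast hcpos Y w hfY
            obtain ⟨-, -, hlip, -⟩ := hF (rep (X w)) (by rwa [hrfx])
            have e1 := l1_scale (1 / (cnt H X : ℝ)) (1 / (cnt H Y : ℝ))
              (F (rep (X w)) (t (X w) • col H z X)) (F (rep (X w)) (t (X w) • col H z Y))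
            have e2 : l1 (F (rep (X w)) (t (X w) • col H z X))
                (F (rep (X w)) (t (X w) • col H z Y)) ≤ C * δ := by
              refine (hlip _ _).trans (mul_le_mul_of_nonneg_left ?_ (by linarith))
              rw [ham_smul]
              exact Nat.cast_le.2 (ham_col H z X Y)
            have e3 := hnorm Y (rep (X w)) (t (X w)) (by rwa [hrfx])
            have e4 : |1 / (cnt H X : ℝ) - 1 / (cnt H Y : ℝ)| ≤
                δ * (1 / (cnt H X : ℝ)) * (1 / (cnt H Y : ℝ)) := by
              have : 1 / (cnt H X : ℝ) - 1 / (cnt H Y : ℝ) =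
                  ((cnt H Y : ℝ) - cnt H X) * (1 / (cnt H X : ℝ)) * (1 / (cnt H Y : ℝ)) := by
                field_simp
              rw [this, abs_mul, abs_mul, abs_of_pos (one_div_pos.2 ha),
                abs_of_pos (one_div_pos.2 hb), abs_sub_comm]
              have hp : 0 ≤ 1 / (cnt H X : ℝ) := (one_div_pos.2 ha).le
              have hq : 0 ≤ 1 / (cnt H Y : ℝ) := (one_div_pos.2 hb).le
              exact mul_le_mul_of_nonneg_right (mul_le_mul_of_nonneg_right hcd hp) hq
            rw [abs_of_pos (one_div_pos.2 ha)] at e1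
            have hp : 0 ≤ 1 / (cnt H X : ℝ) := (one_div_pos.2 ha).le
            have e5 : 1 / (cnt H X : ℝ) * l1 (F (rep (X w)) (t (X w) • col H z X))
                (F (rep (X w)) (t (X w) • col H z Y)) ≤ 1 / (cnt H X : ℝ) * (C * δ) :=
              mul_le_mul_of_nonneg_left e2 hp
            have e6 : |1 / (cnt H X : ℝ) - 1 / (cnt H Y : ℝ)| *
                l1 (F (rep (X w)) (t (X w) • col H z Y)) 0 ≤
                (δ * (1 / (cnt H X : ℝ)) * (1 / (cnt H Y : ℝ))) * (C * cnt H Y) :=
              mul_le_mul e4 e3 (l1_nonneg _ _) (by positivity)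
            have e7 : (δ * (1 / (cnt H X : ℝ)) * (1 / (cnt H Y : ℝ))) * (C * cnt H Y) =
                1 / (cnt H X : ℝ) * (C * δ) := by
              field_simp
            rw [if_neg (not_not.2 h), if_pos hf, zero_add]
            rw [e7] at e6
            calc _ ≤ _ := e1
              _ ≤ 1 / (cnt H X : ℝ) * (C * δ) + 1 / (cnt H X : ℝ) * (C * δ) := add_le_add e5 e6
              _ = _ := by ring
          · intro α _ hα
            rw [hPne X w α hα.symm, hPne Y w α (by rw [← hrXY]; exact hα.symm)]
            simp [l1]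
          · intro h1; exact absurd (Finset.mem_univ _) h1
      · have e1 : (∑ α, l1 (P X w α) (P Y w α)) ≤ ∑ α, (l1 (P X w α) 0 + l1 (P Y w α) 0) := by
          refine Finset.sum_le_sum fun α _ => ?_
          have := l1_triangle (P X w α) 0 (P Y w α)
          rw [l1_comm 0 (P Y w α)] at this
          exact this
        rw [Finset.sum_add_distrib] at e1
        have e2 := hPnorm X w
        have e3 := hPnorm Y w
        have e4 : 0 ≤ (if ¬ Fx H (X w) then 2 * C * δ * (1 / (cnt H X : ℝ)) else 0) := by
          split_ifs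
          · exact le_refl _
          · positivity
        simp only [ne_eq, h, not_false_eq_true, if_true]
        linarith
    have h3 : ∑ w, ∑ α, l1 (P X w α) (P Y w α) ≤ 4 * C * δ := by
      refine (Finset.sum_le_sum fun w _ => h2 w).trans ?_
      rw [Finset.sum_add_distrib, ← Finset.sum_filter, ← Finset.sum_filter, Finset.sum_const,
        Finset.sum_const, nsmul_eq_mul, nsmul_eq_mul, hδ']
      have e1 : ((Finset.univ.filter fun w => ¬ Fx H (X w)).card : ℝ) *
          (2 * C * δ * (1 / (cnt H X : ℝ))) ≤ 2 * C * δ := by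
        have e2 : ((Finset.univ.filter fun w => ¬ Fx H (X w)).card : ℝ) = cnt H X := rfl
        rw [e2]
        by_cases h0 : cnt H X = 0
        · rw [h0]; simp; positivity
        · have : (0 : ℝ) < cnt H X := by exact_mod_cast Nat.pos_of_ne_zero h0
          apply le_of_eq
          field_simp
      linarith
    have hC2 : 0 ≤ C ^ 2 * δ := by positivity
    nlinarith
  · -- lower bound
    intro X Y
    rw [l1_sub_right]
    set η : ℝ := l1 (FH X) (FH Y) with hη
    have hη0 : 0 ≤ η := l1_nonneg _ _
    set B : Finset Ω := Finset.univ.filter fun w => rep (X w) ≠ rep (Y w) with hB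
    set W : Finset Ω := Finset.univ.filter fun w => rep (X w) = rep (Y w) ∧ ¬ Fx H (X w) with hW
    have hsplit := hJ X Y
    rw [← hη] at hsplit
    have hS1nn : 0 ≤ ∑ w, ∑ α, l1 (P X w α) (P Y w α) :=
      Finset.sum_nonneg fun w _ => Finset.sum_nonneg fun α _ => l1_nonneg _ _
    have hBη : 2 * (B.card : ℝ) ≤ η := by
      have : (∑ w, ∑ α : A, |(if rep (X w) = α then (1 : ℝ) else 0) -
          (if rep (Y w) = α then (1 : ℝ) else 0)|) = 2 * (B.card : ℝ) := by
        have e1 : ∀ w, (∑ α : A, |(if rep (X w) = α then (1 : ℝ) else 0) -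
            (if rep (Y w) = α then (1 : ℝ) else 0)|) = if rep (X w) ≠ rep (Y w) then 2 else 0 := by
          intro w
          rw [hS0]
          by_cases h : rep (X w) = rep (Y w) <;> simp [h]
        rw [Finset.sum_congr rfl fun w _ => e1 w, ← Finset.sum_filter, Finset.sum_const,
          nsmul_eq_mul, mul_comm]
      linarith
    -- trivial bound
    have htriv : (hammingDist X Y : ℝ) ≤ B.card + W.card := by
      have : hammingDist X Y ≤ B.card + W.card := by
        unfold hammingDist
        rw [← Finset.card_union_add_card_inter]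
        refine le_trans (Finset.card_le_card ?_) (Nat.le_add_right _ _)
        intro w hw
        simp only [hB, hW, Finset.mem_filter, Finset.mem_univ, true_and, Finset.mem_union] at hw ⊢
        by_cases h : rep (X w) = rep (Y w)
        · right
          refine ⟨h, fun hf => hw ?_⟩
          have hfY : Fx H (Y w) := by rw [← hrfx, ← h, hrfx]; exact hf
          rw [← hfxrep _ hf, h, hfxrep _ hfY]
        · left; exact h
      exact_mod_cast this
    have haW : (cnt H X : ℝ) ≤ B.card + W.card := by
      have : cnt H X ≤ B.card + W.card := by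
        unfold cnt
        rw [← Finset.card_union_add_card_inter]
        refine le_trans (Finset.card_le_card ?_) (Nat.le_add_right _ _)
        intro w hw
        simp only [hB, hW, Finset.mem_filter, Finset.mem_univ, true_and, Finset.mem_union] at hw ⊢
        by_cases h : rep (X w) = rep (Y w)
        · right; exact ⟨h, hw⟩
        · left; exact h
      exact_mod_cast this
    by_cases hsmall : 2 * (W.card : ℝ) < cnt H X ∨ W.card = 0
    · refine ⟨1, H.one_mem, ?_⟩
      rw [one_smul]
      have e1 : (hammingDist X Y : ℝ) ≤ η := by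
        rcases hsmall with h | h
        · linarith
        · have : (W.card : ℝ) = 0 := by exact_mod_cast h
          linarith
      have : 0 ≤ (C ^ 2 + 4 * C + 1) * η := by positivity
      linarith
    · push Not at hsmall
      obtain ⟨hlarge, hW0⟩ := hsmall
      have hWpos : (0 : ℝ) < W.card := by exact_mod_cast Nat.pos_of_ne_zero hW0
      -- a good coordinate
      have hex : ∃ w ∈ W, (W.card : ℝ) * l1 (P X w (rep (X w))) (P Y w (rep (X w))) ≤ η := by
        by_contra hcon
        push Not at hcon
        have e1 : ∑ w ∈ W, η < ∑ w ∈ W, (W.card : ℝ) * l1 (P X w (rep (X w))) (P Y w (rep (X w))) :=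
          Finset.sum_lt_sum_of_nonempty (Finset.card_pos.1 (Nat.pos_of_ne_zero hW0)) hcon
        rw [Finset.sum_const, nsmul_eq_mul, ← Finset.mul_sum] at e1
        have e2 : η < ∑ w ∈ W, l1 (P X w (rep (X w))) (P Y w (rep (X w))) :=
          lt_of_mul_lt_mul_left e1 hWpos.le
        have e3 : ∑ w ∈ W, l1 (P X w (rep (X w))) (P Y w (rep (X w))) ≤
            ∑ w, ∑ α, l1 (P X w α) (P Y w α) := by
          calc _ ≤ ∑ w, l1 (P X w (rep (X w))) (P Y w (rep (X w))) :=
                Finset.sum_le_sum_of_subset_of_nonneg (Finset.subset_univ _)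
                  fun w _ _ => l1_nonneg _ _
            _ ≤ _ := by
                refine Finset.sum_le_sum fun w _ => ?_
                exact Finset.single_le_sum (f := fun α => l1 (P X w α) (P Y w α))
                  (fun α _ => l1_nonneg _ _) (Finset.mem_univ (rep (X w)))
        have e4 : (0 : ℝ) ≤ B.card := Nat.cast_nonneg _
        have e5 : (∑ w, ∑ α : A, |(if rep (X w) = α then (1 : ℝ) else 0) -
          (if rep (Y w) = α then (1 : ℝ) else 0)|) ≥ 0 :=
          Finset.sum_nonneg fun w _ => Finset.sum_nonneg fun α _ => abs_nonneg _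
        linarith
      obtain ⟨w, hwW, hw⟩ := hex
      simp only [hW, Finset.mem_filter, Finset.mem_univ, true_and] at hwW
      obtain ⟨hrXY, hf⟩ := hwW
      have hfY : ¬ Fx H (Y w) := by rw [← hrfx, ← hrXY, hrfx]; exact hf
      have ha : (0 : ℝ) < cnt H X := by exact_mod_cast hcpos X w hf
      have hb : (0 : ℝ) < cnt H Y := by exact_mod_cast hcpos Y w hfY
      rw [hPeq X w hf] at hw
      have hPY : P Y w (rep (X w)) =
          fun i => (1 / (cnt H Y : ℝ)) * F (rep (X w)) (t (Y w) • col H z Y) i := by
        rw [hrXY, hPeq Y w hfY]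
      rw [hPY] at hw
      obtain ⟨-, -, -, hlow⟩ := hF (rep (X w)) (by rwa [hrfx])
      set u := F (rep (X w)) (t (X w) • col H z X) with hu
      set v := F (rep (X w)) (t (Y w) • col H z Y) with hv
      have e1 := l1_scale_lower (1 / (cnt H X : ℝ)) (1 / (cnt H Y : ℝ)) (one_div_pos.2 ha) u v
      rw [one_div_one_div] at e1
      have e2 : l1 v 0 ≤ C * cnt H Y := hnorm Y (rep (X w)) (t (Y w)) (by rwa [hrfx])
      have e3 : (cnt H X : ℝ) * (|1 / (cnt H X : ℝ) - 1 / (cnt H Y : ℝ)| * l1 v 0) ≤
          C * (B.card : ℝ) := by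
        have f1 : 1 / (cnt H X : ℝ) - 1 / (cnt H Y : ℝ) =
            ((cnt H Y : ℝ) - cnt H X) * (1 / (cnt H X : ℝ)) * (1 / (cnt H Y : ℝ)) := by
          field_simp
        rw [f1, abs_mul, abs_mul, abs_of_pos (one_div_pos.2 ha), abs_of_pos (one_div_pos.2 hb),
          abs_sub_comm]
        have f2 := hcntdiff X Y
        rw [← hB] at f2
        calc (cnt H X : ℝ) * (|(cnt H X : ℝ) - cnt H Y| * (1 / (cnt H X : ℝ)) *
              (1 / (cnt H Y : ℝ)) * l1 v 0)
            = |(cnt H X : ℝ) - cnt H Y| * ((1 / (cnt H Y : ℝ)) * l1 v 0) := by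
              field_simp
          _ ≤ (B.card : ℝ) * ((1 / (cnt H Y : ℝ)) * (C * cnt H Y)) := by
              apply mul_le_mul f2 _ _ (Nat.cast_nonneg _)
              · exact mul_le_mul_of_nonneg_left e2 (one_div_pos.2 hb).le
              · exact mul_nonneg (one_div_pos.2 hb).le (l1_nonneg _ _)
          _ = C * (B.card : ℝ) := by
              field_simp
      have e4 : (cnt H X : ℝ) * l1 (fun i => 1 / (cnt H X : ℝ) * u i)
          (fun i => 1 / (cnt H Y : ℝ) * v i) ≤ 2 * η := by
        have f1 := l1_nonneg (fun i => 1 / (cnt H X : ℝ) * u i)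
          (fun i => 1 / (cnt H Y : ℝ) * v i)
        calc _ ≤ (2 * (W.card : ℝ)) * l1 (fun i => 1 / (cnt H X : ℝ) * u i)
              (fun i => 1 / (cnt H Y : ℝ) * v i) := mul_le_mul_of_nonneg_right hlarge f1
          _ = 2 * ((W.card : ℝ) * l1 (fun i => 1 / (cnt H X : ℝ) * u i)
              (fun i => 1 / (cnt H Y : ℝ) * v i)) := by ring
          _ ≤ 2 * η := by linarith
      have e5 : l1 u v ≤ 2 * η + C * (B.card : ℝ) := by
        rw [mul_add] at e1
        linarith
      obtain ⟨g, hg, hgd⟩ := hlow (t (X w) • col H z X) (t (Y w) • col H z Y)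
      have hgH : g ∈ H := hg.1
      refine ⟨(t (X w))⁻¹ * g * t (Y w), H.mul_mem (H.mul_mem (H.inv_mem (htH _)) hgH) (htH _), ?_⟩
      set h := (t (X w))⁻¹ * g * t (Y w) with hh
      have hhH : h ∈ H := H.mul_mem (H.mul_mem (H.inv_mem (htH _)) hgH) (htH _)
      have e6 : hammingDist (t (X w) • col H z X) (g • t (Y w) • col H z Y) =
          hammingDist (col H z X) (col H z (h • Y)) := by
        rw [col_smul hz hhH, ← ham_smul (t (X w)) (col H z X) (h • col H z Y), hh]
        congr 1
        rw [smul_smul, smul_smul]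
        congr 1
        group
      rw [e6] at hgd
      have e7 : (hammingDist X (h • Y) : ℝ) ≤ hammingDist (col H z X) (col H z (h • Y)) +
          (B.card : ℝ) := by
        have : hammingDist X (h • Y) ≤ hammingDist (col H z X) (col H z (h • Y)) + B.card := by
          unfold hammingDist
          rw [← Finset.card_union_add_card_inter]
          refine le_trans (Finset.card_le_card ?_) (Nat.le_add_right _ _)
          intro w' hw'
          simp only [hB, Finset.mem_filter, Finset.mem_univ, true_and, Finset.mem_union]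
            at hw' ⊢
          by_cases hc : col H z X w' = col H z (h • Y) w'
          · right
            intro hr
            apply hw'
            by_cases hf1 : Fx H (X w')
            · have hf2 : Fx H (Y w') := by rw [← hrfx, ← hr, hrfx]; exact hf1
              rw [Pi.smul_apply, hf2 h hhH, ← hfxrep _ hf1, hr, hfxrep _ hf2]
            · have hf2 : ¬ Fx H (Y w') := by rw [← hrfx, ← hr, hrfx]; exact hf1
              have hf3 : ¬ Fx H ((h • Y) w') := by rw [Pi.smul_apply, Fx.smul hhH]; exact hf2
              have g1 : col H z X w' = X w' := by simp only [col]; rw [if_neg hf1]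
              have g2 : col H z (h • Y) w' = (h • Y) w' := by simp only [col]; rw [if_neg hf3]
              rw [g1, g2] at hc
              exact hc
          · left; exact hc
        exact_mod_cast this
      have e8 : C * l1 u v ≤ C * (2 * η + C * (B.card : ℝ)) :=
        mul_le_mul_of_nonneg_left e5 (by linarith)
      have hB2 : (B.card : ℝ) ≤ η / 2 := by linarith
      have e9 : C * (C * (B.card : ℝ)) ≤ C * (C * (η / 2)) :=
        mul_le_mul_of_nonneg_left (mul_le_mul_of_nonneg_left hB2 (by linarith)) (by linarith)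
      have e10 : 0 ≤ C * η := by positivity
      have e11 : 0 ≤ C * (C * η) := by positivity
      calc (hammingDist X (h • Y) : ℝ) ≤ C * l1 u v + B.card := by linarith
        _ ≤ C * (2 * η + C * (B.card : ℝ)) + η / 2 := by linarith
        _ ≤ C * (2 * η) + C * (C * (η / 2)) + η / 2 := by
            have : C * (2 * η + C * (B.card : ℝ)) = C * (2 * η) + C * (C * (B.card : ℝ)) := by ring
            rw [this]; linarith
        _ ≤ (C ^ 2 + 4 * C + 2) * η := by nlinarith

/-- Every subgroup is good. -/
theorem exists_good [Finite G] (z : A) (hz : ∀ g : G, g • z = z) (H : Subgroup G) :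
    ∃ C : ℝ, 1 ≤ C ∧ Good H z C := by
  classical
  induction H using WellFoundedLT.induction with
  | ind H ih =>
    have h1 : ∀ a : A, ∃ C : ℝ, 1 ≤ C ∧ (¬ Fx H a → Good (H ⊓ MulAction.stabilizer G a) z C) := by
      intro a
      by_cases ha : Fx H a
      · exact ⟨1, le_refl _, fun h => absurd ha h⟩
      · have hlt : H ⊓ MulAction.stabilizer G a < H := by
          refine lt_of_le_of_ne inf_le_left ?_
          intro heq
          apply ha
          intro h hh
          rw [← heq] at hh
          exact hh.2
        obtain ⟨C, hC, hg⟩ := ih _ hlt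
        exact ⟨C, hC, fun _ => hg⟩
    choose C hC hg using h1
    have hle : ∀ a, C a ≤ ∑ b, C b := fun a =>
      Finset.single_le_sum (f := C) (fun b _ => by linarith [hC b]) (Finset.mem_univ a)
    have hone : 1 ≤ ∑ b, C b := (hC z).trans (hle z)
    refine ⟨(∑ b, C b) ^ 2 + 4 * (∑ b, C b) + 2, by nlinarith, ?_⟩
    apply good_step H z hz _ hone
    intro a ha
    exact (hg a ha).mono (hle a)

end Pool.Agent.MP_12e089_an
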