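import Pool.Agent.MP_12e089_an.Defs
import Pool.Agent.MP_12e089_an.Quot

set_option linter.unusedSectionVars false

/-!
Finite dimensional `ℓ_1` embeds isometrically into `L_1([0,1])`.
-/

namespace Pool.Agent.MP_12e089_an

open MeasureTheory Finset

/-- The `k`-th of `n` equal subintervals. -/
def cell (n : ℕ) (k : Fin n) : Set ℝ := Set.Ico ((k : ℕ) / (n : ℝ)) (((k : ℕ) + 1) / (n : ℝ))

lemma cell_disj {n : ℕ} {k k' : Fin n} {t : ℝ} (h : t ∈ cell n k) (h' : t ∈ cell n k') :
    k = k' := by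
  have hn : (0 : ℝ) < n := by
    have := k.2
    exact_mod_cast (by omega : 0 < n)
  obtain ⟨h1, h2⟩ := h
  obtain ⟨h3, h4⟩ := h'
  rw [div_le_iff₀ hn] at h1 h3
  rw [lt_div_iff₀ hn] at h2 h4
  have h5 : ((k : ℕ) : ℝ) < ((k' : ℕ) : ℝ) + 1 := by linarith
  have h6 : ((k' : ℕ) : ℝ) < ((k : ℕ) : ℝ) + 1 := by linarith
  have h7 : (k : ℕ) < (k' : ℕ) + 1 := by exact_mod_cast h5
  have h8 : (k' : ℕ) < (k : ℕ) + 1 := by exact_mod_cast h6
  apply Fin.ext
  omega

lemma cell_sub {n : ℕ} (k : Fin n) : cell n k ⊆ Set.Icc (0 : ℝ) 1 := by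
  intro t ht
  have hn : (0 : ℝ) < n := by
    have := k.2
    exact_mod_cast (by omega : 0 < n)
  obtain ⟨h1, h2⟩ := ht
  constructor
  · refine le_trans ?_ h1
    positivity
  · apply h2.le.trans
    rw [div_le_one hn]
    have := k.2
    exact_mod_cast (by omega : (k : ℕ) + 1 ≤ n)

lemma cell_meas {n : ℕ} (k : Fin n) : MeasurableSet (cell n k) := measurableSet_Ico

lemma cell_vol {n : ℕ} (k : Fin n) :
    ((volume.restrict (Set.Icc (0 : ℝ) 1)).real (cell n k)) = 1 / (n : ℝ) := by
  have hn : (0 : ℝ) < n := by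
    have := k.2
    exact_mod_cast (by omega : 0 < n)
  rw [measureReal_restrict_apply (cell_meas k), Set.inter_eq_left.2 (cell_sub k), cell,
    Real.volume_real_Ico_of_le]
  · field_simp
    ring
  · apply div_le_div_of_nonneg_right _ hn.le
    linarith

/-- The step function with prescribed masses. -/
noncomputable def stepFn {n : ℕ} (u : Fin n → ℝ) : ℝ → ℝ :=
  fun t => ∑ k, (cell n k).indicator (fun _ => (n : ℝ) * u k) t

lemma stepFn_int {n : ℕ} (u : Fin n → ℝ) :
    Integrable (stepFn u) (volume.restrict (Set.Icc (0 : ℝ) 1)) := by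
  unfold stepFn
  apply integrable_finsetSum
  intro k _
  exact (integrable_const _).indicator (cell_meas k)

lemma stepFn_sub {n : ℕ} (u v : Fin n → ℝ) : stepFn u - stepFn v = stepFn (u - v) := by
  ext t
  simp only [stepFn, Pi.sub_apply]
  rw [← Finset.sum_sub_distrib]
  refine Finset.sum_congr rfl fun k _ => ?_
  by_cases h : t ∈ cell n k
  · simp only [Set.indicator_of_mem h]; ring
  · simp only [Set.indicator_of_notMem h]; ring

lemma stepFn_abs {n : ℕ} (u : Fin n → ℝ) (t : ℝ) :
    ‖stepFn u t‖ = ∑ k, (cell n k).indicator (fun _ => (n : ℝ) * |u k|) t := by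
  unfold stepFn
  by_cases h : ∃ k, t ∈ cell n k
  · obtain ⟨k, hk⟩ := h
    rw [Finset.sum_eq_single k, Finset.sum_eq_single k]
    · simp only [Set.indicator_of_mem hk]
      rw [Real.norm_eq_abs, abs_mul, abs_of_nonneg (Nat.cast_nonneg n)]
    · intro j _ hj
      exact Set.indicator_of_notMem (fun h => hj (cell_disj h hk)) _
    · intro h; exact absurd (Finset.mem_univ _) h
    · intro j _ hj
      exact Set.indicator_of_notMem (fun h => hj (cell_disj h hk)) _
    · intro h; exact absurd (Finset.mem_univ _) h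
  · push Not at h
    rw [Finset.sum_eq_zero (fun k _ => Set.indicator_of_notMem (h k) _),
      Finset.sum_eq_zero (fun k _ => Set.indicator_of_notMem (h k) _)]
    simp

lemma stepFn_norm {n : ℕ} (u : Fin n → ℝ) :
    ∫ t, ‖stepFn u t‖ ∂(volume.restrict (Set.Icc (0 : ℝ) 1)) = ∑ k, |u k| := by
  simp only [stepFn_abs]
  rw [integral_finsetSum]
  · refine Finset.sum_congr rfl fun k _ => ?_
    have hn : (0 : ℝ) < n := by
      have := k.2
      exact_mod_cast (by omega : 0 < n)
    rw [integral_indicator_const _ (cell_meas k), cell_vol, smul_eq_mul]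
    field_simp
  · intro k _
    exact (integrable_const _).indicator (cell_meas k)

/-- The embedding of `ℓ_1^n` into `L_1([0,1])`. -/
noncomputable def toLOne {n : ℕ} (u : Fin n → ℝ) : L1 := (stepFn_int u).toL1 (stepFn u)

lemma toLOne_dist {n : ℕ} (u v : Fin n → ℝ) : ‖toLOne u - toLOne v‖ = ∑ k, |u k - v k| := by
  unfold toLOne
  rw [← Integrable.toL1_sub, MeasureTheory.L1.norm_of_fun_eq_integral_norm]
  rw [stepFn_sub, stepFn_norm]
  rfl

/-- Every finite dimensional `ℓ_1` space embeds isometrically into `L_1([0,1])`. -/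
lemma exists_toLOne (I : Type) [Fintype I] :
    ∃ E : (I → ℝ) → L1, ∀ u v, ‖E u - E v‖ = l1 u v := by
  refine ⟨fun u => toLOne (fun k => u ((Fintype.equivFin I).symm k)), fun u v => ?_⟩
  rw [toLOne_dist]
  unfold l1
  exact Equiv.sum_comp (Fintype.equivFin I).symm (fun i => |u i - v i|)

end Pool.Agent.MP_12e089_an
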