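import Pool.Agent.MP_12e089_an.Defs

/-!
The `L_1` distortions of `Y(Δ, d, s)` for the two metrics on the grid.
-/

namespace Pool.Agent.MP_12e089_an

/-- `c_1(Y(Δ, d, s))` for the `ℓ_1` metric on the grid. -/
noncomputable def cY1 (Δ d s : ℕ) : ℝ := c1 (fun μ ν : Y Δ d s => W1 rho1 μ.1 ν.1)

/-- `c_1(Y(Δ, d, s))` for the `ℓ_2` metric on the grid. -/
noncomputable def cY2 (Δ d s : ℕ) : ℝ := c1 (fun μ ν : Y Δ d s => W1 rho2 μ.1 ν.1)

end Pool.Agent.MP_12e089_an
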