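import Pool.Agent.MP_12e089_an.LogS.Main
import Pool.Agent.MP_12e089_an.Dist
import Pool.Agent.KhN.UpFin

/-!
Assembly of the two-sided bounds of the `L_1` distortion of `Y(Δ, d, s)`.
-/

namespace Pool.Agent.MP_12e089_an.Order

open Pool.Agent.MP_12e089_an Pool.Agent.KhN

variable {Δ d s : ℕ}

theorem lower {ρ : Grid Δ d → Grid Δ d → ℝ} {B D₀ : ℝ}
    (hne : EmbedsL1 (fun μ ν : Y Δ d s => W1 ρ μ.1 ν.1) D₀)
    (h : ∀ D : ℝ, EmbedsL1 (fun μ ν : Y Δ d s => W1 ρ μ.1 ν.1) D → B ≤ D) :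
    max 1 B ≤ c1 (fun μ ν : Y Δ d s => W1 ρ μ.1 ν.1) :=
  le_csInf ⟨D₀, hne⟩ fun D hD => max_le hD.1 (h D hD)

/-- From `s` to `m = min(s, Δ^d - s)`. -/
theorem to_m {ρ : Grid Δ d → Grid Δ d → ℝ} (hρ : IsMet ρ) (hs : 1 ≤ s) (hs' : s < Δ ^ d)
    {D : ℝ} :
    EmbedsL1 (fun μ ν : Y Δ d s => W1 ρ μ.1 ν.1) D ↔
      EmbedsL1 (fun μ ν : Y Δ d (min s (Δ ^ d - s)) => W1 ρ μ.1 ν.1) D := by
  rcases Nat.le_total s (Δ ^ d - s) with h | h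
  · rw [min_eq_left h]
  · rw [min_eq_right h]
    constructor
    · intro hD
      have h2 : Δ ^ d - (Δ ^ d - s) = s := by omega
      refine compl_grid hρ (by omega) (by omega) ?_
      rw [h2]
      exact hD
    · exact compl_grid hρ hs hs'

theorem up_log (hΔ : 2 ≤ Δ) (hd : 1 ≤ d) (hs : 1 ≤ s) :
    EmbedsL1 (fun μ ν : Y Δ d s => W1 rho1 μ.1 ν.1) (6 + 180 * Real.log s) ∧
    EmbedsL1 (fun μ ν : Y Δ d s => W1 rho2 μ.1 ν.1) (6 + 180 * Real.log s) := by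
  have e : (6 + 180 * Real.log s : ℝ) = 6 * (1 + 30 * Real.log s) := by ring
  rw [e]
  exact LogS.grid_logS Δ d s hΔ hd hs

theorem up_sqrt (hΔ : 2 ≤ Δ) (hd : 1 ≤ d) (hs : 1 ≤ s) :
    EmbedsL1 (fun μ ν : Y Δ d s => W1 rho2 μ.1 ν.1) (64 * Real.sqrt (Δ * (1 + Real.log s))) := by
  have h := up2 (Δ := Δ) (d := d) (s := s) (by omega) hd hs
  rw [Real.sqrt_mul (Nat.cast_nonneg Δ), ← mul_assoc]
  exact h

theorem main (hΔ : 2 ≤ Δ) (hd : 1 ≤ d) (hs : 1 ≤ s) (hs' : s < Δ ^ d) {m : ℕ}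
    (hm : m = min s (Δ ^ d - s)) :
    (max 1 (min (d : ℝ) (Real.logb 2 m) / 256) ≤ c1 (fun μ ν : Y Δ d s => W1 rho1 μ.1 ν.1) ∧
      c1 (fun μ ν : Y Δ d s => W1 rho1 μ.1 ν.1) ≤ 6 + 180 * Real.log m) ∧
    (max 1 (Real.sqrt (min (d : ℝ) (Real.logb 2 m)) / 64) ≤
        c1 (fun μ ν : Y Δ d s => W1 rho2 μ.1 ν.1) ∧
      c1 (fun μ ν : Y Δ d s => W1 rho2 μ.1 ν.1) ≤
        min (6 + 180 * Real.log m) (64 * Real.sqrt (Δ * (1 + Real.log m)))) := by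
  subst hm
  have hm1 : 1 ≤ min s (Δ ^ d - s) := by omega
  have hm2 : 2 * min s (Δ ^ d - s) ≤ Δ ^ d := by omega
  have u := up_log (Δ := Δ) (d := d) (s := min s (Δ ^ d - s)) hΔ hd hm1
  have v := up_sqrt (Δ := Δ) (d := d) (s := min s (Δ ^ d - s)) hΔ hd hm1
  have u1 := (to_m isMet_rho1 hs hs').2 u.1
  have u2 := (to_m isMet_rho2 hs hs').2 u.2
  have v2 := (to_m isMet_rho2 hs hs').2 v
  exact ⟨⟨lower u1 fun D hD => low1 hΔ hd hm1 hm2 ((to_m isMet_rho1 hs hs').1 hD), c1_le u1⟩,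
    ⟨lower u2 fun D hD => low2 hΔ hd hm1 hm2 ((to_m isMet_rho2 hs hs').1 hD),
      le_min (c1_le u2) (c1_le v2)⟩⟩

theorem m_facts (hs : 1 ≤ s) (hs' : s < Δ ^ d) {m : ℕ}
    (hm : m = min s (Δ ^ d - s)) :
    1 ≤ m ∧ 0 ≤ Real.log m ∧ Real.log m ≤ d * Real.log Δ := by
  have h1 : 1 ≤ m := by omega
  have h1' : (1 : ℝ) ≤ m := by exact_mod_cast h1
  refine ⟨h1, Real.log_nonneg h1', ?_⟩
  rw [← Real.log_pow]
  refine Real.log_le_log (by linarith) ?_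
  have : m ≤ Δ ^ d := by omega
  exact_mod_cast this

/-- The lower bound `min(d, log_2 m)` is at least `log m / K` if `log m ≤ K d` and `K ≥ 1`. -/
theorem min_ge {d : ℕ} {m : ℕ} {K : ℝ} (hK : 1 ≤ K) (hl : 0 ≤ Real.log m)
    (h : Real.log m ≤ K * d) : Real.log m / K ≤ min (d : ℝ) (Real.logb 2 m) := by
  have hl2 : Real.log 2 ≤ 1 := by linarith [Real.log_two_lt_d9]
  have hl2' : 0 < Real.log 2 := Real.log_pos (by norm_num)
  refine le_min ?_ ?_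
  · rw [div_le_iff₀ (by linarith)]
    linarith
  · unfold Real.logb
    exact div_le_div_of_nonneg_left hl hl2' (hl2.trans hK)

theorem half1 {x y : ℝ} {K : ℝ} (hK : 1 ≤ K) (hx : 0 ≤ x) (h : x / K ≤ y) :
    1 / (512 * K) * (1 + x) ≤ max 1 (y / 256) := by
  have hK0 : 0 < K := by linarith
  have h1 : 1 / (512 * K) * (1 + x) = (1 / K + x / K) / 512 := by
    field_simp
  have h2 : 1 / K ≤ 1 := by
    rw [div_le_one hK0]
    exact hK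
  rw [h1]
  have h3 := le_max_left 1 (y / 256)
  have h4 := le_max_right 1 (y / 256)
  linarith

theorem half2 {x y : ℝ} {K : ℝ} (hK : 1 ≤ K) (hx : 0 ≤ x) (h : x / K ≤ y) :
    1 / (512 * K) * Real.sqrt (1 + x) ≤ max 1 (Real.sqrt y / 64) := by
  have hK0 : 0 < K := by linarith
  have h3 := le_max_left 1 (Real.sqrt y / 64)
  have h4 := le_max_right 1 (Real.sqrt y / 64)
  have hx1 : x ≤ K * y := by
    rw [div_le_iff₀ hK0] at h
    linarith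
  have hy : 0 ≤ y := le_trans (by positivity) h
  have h5 : Real.sqrt (1 + x) ≤ 1 + K * Real.sqrt y := by
    refine Real.sqrt_le_iff.2 ⟨by positivity, ?_⟩
    have h6 := Real.sq_sqrt hy
    have h7 : (1 + K * Real.sqrt y) ^ 2 = 1 + 2 * K * Real.sqrt y + K ^ 2 * y := by
      linear_combination K ^ 2 * h6
    rw [h7]
    have h8 : K * y ≤ K ^ 2 * y := by
      refine mul_le_mul_of_nonneg_right ?_ hy
      nlinarith
    have h9 : 0 ≤ 2 * K * Real.sqrt y := by positivity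
    linarith
  have h10 : 1 / (512 * K) * Real.sqrt (1 + x) ≤ 1 / (512 * K) * (1 + K * Real.sqrt y) :=
    mul_le_mul_of_nonneg_left h5 (by positivity)
  have h11 : 1 / (512 * K) * (1 + K * Real.sqrt y) = 1 / (512 * K) + Real.sqrt y / 512 := by
    field_simp
  have h12 : 1 / (512 * K) ≤ 1 / 512 := by
    rw [div_le_div_iff₀ (by positivity) (by norm_num)]
    nlinarith
  have h13 := Real.sqrt_nonneg y
  linarith

theorem W1_self {ρ : Grid Δ d → Grid Δ d → ℝ} (hρ : IsMet ρ) {μ : Grid Δ d → ℝ}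
    (hμ : ∀ x, 0 ≤ μ x) : W1 ρ μ μ = 0 := by
  have h := W1_add hρ (a := fun _ => 0) (b := fun _ => 0) (c := μ) (fun _ => le_refl _)
    (fun _ => le_refl _) hμ
  simp only [zero_add] at h
  rw [h, W1_eq]
  refine le_antisymm ?_ ?_
  · refine csInf_le (bdd hρ _ _) ⟨fun _ _ => 0, ⟨fun _ _ => le_refl _, ?_, ?_⟩, ?_⟩
    · simp
    · simp
    · simp [cost]
  · refine le_csInf ⟨0, fun _ _ => 0, ⟨fun _ _ => le_refl _, by simp, by simp⟩, by simp [cost]⟩ ?_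
    rintro c ⟨π, h, rfl⟩
    exact Finset.sum_nonneg fun x _ => Finset.sum_nonneg fun y _ =>
      mul_nonneg (h.nonneg x y) (hρ.nonneg x y)

theorem one {ρ : Grid Δ d → Grid Δ d → ℝ} (hρ : IsMet ρ) :
    c1 (fun μ ν : Y Δ d (Δ ^ d) => W1 ρ μ.1 ν.1) = 1 := by
  have hS : ∀ μ ν : Y Δ d (Δ ^ d), μ = ν := by
    rintro ⟨μ, S, hS, rfl⟩ ⟨ν, T, hT, rfl⟩
    have e : ∀ S : Finset (Grid Δ d), S.card = Δ ^ d → S = Finset.univ := by
      intro S hS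
      refine (Finset.card_eq_iff_eq_univ S).1 ?_
      rw [hS, Fintype.card_fun, Fintype.card_fin, Fintype.card_fin]
    congr 1
    rw [e S hS, e T hT]
  have h1 : EmbedsL1 (fun μ ν : Y Δ d (Δ ^ d) => W1 ρ μ.1 ν.1) 1 := by
    refine ⟨le_refl _, fun _ => 0, 1, one_pos, fun μ ν => ?_⟩
    obtain rfl := hS μ ν
    have hμ : ∀ x, 0 ≤ μ.1 x := by
      obtain ⟨μ, S, hS, rfl⟩ := μ
      intro x
      change 0 ≤ unif (Δ ^ d) S x
      unfold unif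
      split_ifs <;> positivity
    have h0 : W1 ρ μ.1 μ.1 = 0 := W1_self hρ hμ
    simp [h0]
  refine le_antisymm (c1_le h1) ?_
  exact le_csInf ⟨1, h1⟩ fun D hD => hD.1

/-- Write `m = min(s, Δ^d - s)`. For all `Δ ≥ 2`, `d ≥ 1`, `1 ≤ s < Δ^d`:
`max(1, min(d, log₂ m)/256) ≤ c_1(Y(Δ, d, s)) ≤ 6 + 180 log m` for the `ℓ_1` metric and
`max(1, √(min(d, log₂ m))/64) ≤ c_1(Y(Δ, d, s)) ≤ min(6 + 180 log m, 64 √(Δ (1 + log m)))` for the
`ℓ_2` metric, and `c_1(Y(Δ, d, Δ^d)) = 1`.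

Hence the function `f(s) = 6 + 180 log s` bounds `c_1(Y(Δ, d, s))` for both metrics; for every
fixed `Δ` the order of `c_1` is `1 + log m` for the `ℓ_1` metric and `√(1 + log m)` for the `ℓ_2`
metric; and for the `ℓ_1` metric the order is `1 + log m` for all `Δ` as long as
`log m ≤ A d`. -/
theorem order :
    -- explicit bounds
    (∀ Δ d s m : ℕ, 2 ≤ Δ → 1 ≤ d → 1 ≤ s → s < Δ ^ d → m = min s (Δ ^ d - s) →
      (max 1 (min (d : ℝ) (Real.logb 2 m) / 256) ≤ cY1 Δ d s ∧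
        cY1 Δ d s ≤ 6 + 180 * Real.log m) ∧
      (max 1 (Real.sqrt (min (d : ℝ) (Real.logb 2 m)) / 64) ≤ cY2 Δ d s ∧
        cY2 Δ d s ≤ min (6 + 180 * Real.log m) (64 * Real.sqrt (Δ * (1 + Real.log m))))) ∧
    (∀ Δ d : ℕ, 2 ≤ Δ → 1 ≤ d → cY1 Δ d (Δ ^ d) = 1 ∧ cY2 Δ d (Δ ^ d) = 1) ∧
    -- Q2
    (∀ Δ d s : ℕ, 2 ≤ Δ → 1 ≤ d → 1 ≤ s → s ≤ Δ ^ d →
      cY1 Δ d s ≤ 6 + 180 * Real.log s ∧ cY2 Δ d s ≤ 6 + 180 * Real.log s) ∧
    -- Q1 for every fixed `Δ`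
    (∀ Δ : ℕ, 2 ≤ Δ → ∃ c C : ℝ, 0 < c ∧ 0 < C ∧ ∀ d s m : ℕ,
      1 ≤ d → 1 ≤ s → s < Δ ^ d → m = min s (Δ ^ d - s) →
      (c * (1 + Real.log m) ≤ cY1 Δ d s ∧ cY1 Δ d s ≤ C * (1 + Real.log m)) ∧
      (c * Real.sqrt (1 + Real.log m) ≤ cY2 Δ d s ∧
        cY2 Δ d s ≤ C * Real.sqrt (1 + Real.log m))) ∧
    -- Q1 for the `ℓ_1` metric, all `Δ`, in the range `log m ≤ A d`
    (∀ A : ℝ, 0 < A → ∃ c C : ℝ, 0 < c ∧ 0 < C ∧ ∀ Δ d s m : ℕ,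
      2 ≤ Δ → 1 ≤ d → 1 ≤ s → s < Δ ^ d → m = min s (Δ ^ d - s) → Real.log m ≤ A * d →
      c * (1 + Real.log m) ≤ cY1 Δ d s ∧ cY1 Δ d s ≤ C * (1 + Real.log m)) := by
  have H : ∀ Δ d s m : ℕ, 2 ≤ Δ → 1 ≤ d → 1 ≤ s → s < Δ ^ d → m = min s (Δ ^ d - s) →
      (max 1 (min (d : ℝ) (Real.logb 2 m) / 256) ≤ cY1 Δ d s ∧
        cY1 Δ d s ≤ 6 + 180 * Real.log m) ∧
      (max 1 (Real.sqrt (min (d : ℝ) (Real.logb 2 m)) / 64) ≤ cY2 Δ d s ∧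
        cY2 Δ d s ≤ min (6 + 180 * Real.log m) (64 * Real.sqrt (Δ * (1 + Real.log m)))) :=
    fun Δ d s m hΔ hd hs hs' hm => main hΔ hd hs hs' hm
  refine ⟨H, fun Δ d _ _ => ⟨one isMet_rho1, one isMet_rho2⟩, ?_, ?_, ?_⟩
  · intro Δ d s hΔ hd hs _
    obtain ⟨h1, h2⟩ := up_log (Δ := Δ) (d := d) (s := s) hΔ hd hs
    exact ⟨c1_le h1, c1_le h2⟩
  · intro Δ hΔ
    have hK : (1 : ℝ) ≤ max 1 (Real.log Δ) := le_max_left _ _
    have hΔ0 : (0 : ℝ) ≤ Δ := Nat.cast_nonneg Δ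
    refine ⟨1 / (512 * max 1 (Real.log Δ)), 180 + 64 * Real.sqrt Δ, by positivity, by positivity,
      fun d s m hd hs hs' hm => ?_⟩
    obtain ⟨⟨h1, h2⟩, h3, h4⟩ := H Δ d s m hΔ hd hs hs' hm
    obtain ⟨_, hl, hl'⟩ := m_facts hs hs' hm
    have hlK : Real.log m ≤ max 1 (Real.log Δ) * d := by
      refine hl'.trans ?_
      rw [mul_comm]
      exact mul_le_mul_of_nonneg_right (le_max_right _ _) (Nat.cast_nonneg d)
    have hmin := min_ge hK hl hlK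
    refine ⟨⟨(half1 hK hl hmin).trans h1, h2.trans ?_⟩, (half2 hK hl hmin).trans h3,
      (h4.trans (min_le_right _ _)).trans ?_⟩
    · have := Real.sqrt_nonneg (Δ : ℝ)
      nlinarith
    · rw [Real.sqrt_mul hΔ0, ← mul_assoc]
      refine mul_le_mul_of_nonneg_right ?_ (Real.sqrt_nonneg _)
      linarith
  · intro A hA
    have hK : (1 : ℝ) ≤ max 1 A := le_max_left _ _
    refine ⟨1 / (512 * max 1 A), 180, by positivity, by norm_num,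
      fun Δ d s m hΔ hd hs hs' hm hA' => ?_⟩
    obtain ⟨⟨h1, h2⟩, _, _⟩ := H Δ d s m hΔ hd hs hs' hm
    obtain ⟨_, hl, _⟩ := m_facts hs hs' hm
    have hlK : Real.log m ≤ max 1 A * d :=
      hA'.trans (mul_le_mul_of_nonneg_right (le_max_right _ _) (Nat.cast_nonneg d))
    have hmin := min_ge hK hl hlK
    refine ⟨(half1 hK hl hmin).trans h1, h2.trans ?_⟩
    linarith

end Pool.Agent.MP_12e089_an.Order
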