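import Pool.Agent.MP_12e089_an.Quot

set_option linter.unusedSectionVars false

/-!
Encodings of the grid into Hamming cubes.
-/

namespace Pool.Agent.MP_12e089_an

open Finset

/-- Threshold encoding. -/
def enc {J M : Type} (N : ℕ) (φ : J → M → ℕ) (x : M) : J × Fin N → Bool :=
  fun p => decide (p.2.1 < φ p.1 x)

lemma card_thr (N a b : ℕ) (hab : a ≤ b) (hb : b ≤ N) :
    (Finset.univ.filter fun t : Fin N => decide (t.1 < a) ≠ decide (t.1 < b)).card = b - a := by
  have h1 : (Finset.univ.filter fun t : Fin N => decide (t.1 < a) ≠ decide (t.1 < b)).map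
      Fin.valEmbedding = Finset.Ico a b := by
    ext t
    simp only [Finset.mem_map, Finset.mem_filter, Finset.mem_univ, true_and,
      Fin.valEmbedding_apply, Finset.mem_Ico, ne_eq, decide_eq_decide]
    constructor
    · rintro ⟨s, hs, rfl⟩
      by_contra hcon
      apply hs
      constructor <;> intro <;> omega
    · rintro ⟨h1, h2⟩
      exact ⟨⟨t, by omega⟩, by simp; omega, rfl⟩
  rw [← Finset.card_map Fin.valEmbedding, h1, Nat.card_Ico]

lemma card_thr' (N a b : ℕ) (ha : a ≤ N) (hb : b ≤ N) :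
    ((Finset.univ.filter fun t : Fin N => decide (t.1 < a) ≠ decide (t.1 < b)).card : ℝ) =
      |(a : ℝ) - b| := by
  rcases le_total a b with h | h
  · rw [card_thr N a b h hb, Nat.cast_sub h, abs_sub_comm, abs_of_nonneg]
    have : (a : ℝ) ≤ b := by exact_mod_cast h
    linarith
  · have h1 : (Finset.univ.filter fun t : Fin N => decide (t.1 < a) ≠ decide (t.1 < b)) =
        (Finset.univ.filter fun t : Fin N => decide (t.1 < b) ≠ decide (t.1 < a)) := by
      ext t; simp only [Finset.mem_filter, Finset.mem_univ, true_and]; exact ne_comm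
    rw [h1, card_thr N b a h ha, Nat.cast_sub h, abs_of_nonneg]
    have : (b : ℝ) ≤ a := by exact_mod_cast h
    linarith

lemma ham_enc {J M : Type} [Fintype J] (N : ℕ) (φ : J → M → ℕ) (hφ : ∀ j x, φ j x ≤ N)
    (x y : M) : (hammingDist (enc N φ x) (enc N φ y) : ℝ) = ∑ j, |(φ j x : ℝ) - φ j y| := by
  classical
  have h1 : hammingDist (enc N φ x) (enc N φ y) = ∑ j, (Finset.univ.filter fun t : Fin N =>
      decide (t.1 < φ j x) ≠ decide (t.1 < φ j y)).card := by
    unfold hammingDist enc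
    rw [Finset.card_filter, Fintype.sum_prod_type]
    refine Finset.sum_congr rfl fun j _ => ?_
    rw [Finset.card_filter]
  rw [h1]
  push_cast
  refine Finset.sum_congr rfl fun j _ => ?_
  exact card_thr' N _ _ (hφ j x) (hφ j y)

/-! ### Khintchine's inequality with the fourth moment -/

/-- Signed sums. -/
noncomputable def sgn {ι : Type} [DecidableEq ι] (U : Finset ι) (v : ι → ℝ) (T : Finset ι) : ℝ :=
  ∑ i ∈ U, if i ∈ T then v i else -v i

lemma sgn_insert_left {ι : Type} [DecidableEq ι] (U : Finset ι) (v : ι → ℝ) (a : ι) (ha : a ∉ U)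
    (T : Finset ι) (hT : T ⊆ U) : sgn (insert a U) v T = sgn U v T - v a := by
  unfold sgn
  rw [Finset.sum_insert ha, if_neg (fun h => ha (hT h))]
  ring

lemma sgn_insert_right {ι : Type} [DecidableEq ι] (U : Finset ι) (v : ι → ℝ) (a : ι) (ha : a ∉ U)
    (T : Finset ι) : sgn (insert a U) v (insert a T) = sgn U v T + v a := by
  unfold sgn
  rw [Finset.sum_insert ha, if_pos (Finset.mem_insert_self _ _), add_comm]
  congr 1
  refine Finset.sum_congr rfl fun i hi => ?_
  have : i ≠ a := fun h => ha (h ▸ hi)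
  simp [Finset.mem_insert, this]

lemma moments {ι : Type} [DecidableEq ι] (U : Finset ι) (v : ι → ℝ) :
    (∑ T ∈ U.powerset, (sgn U v T) ^ 2 = 2 ^ U.card * ∑ i ∈ U, v i ^ 2) ∧
    (∑ T ∈ U.powerset, (sgn U v T) ^ 4 ≤ 3 * 2 ^ U.card * (∑ i ∈ U, v i ^ 2) ^ 2) := by
  induction U using Finset.induction_on with
  | empty => simp [sgn]
  | insert a U ha ih =>
    obtain ⟨ih2, ih4⟩ := ih
    have e2 : ∑ T ∈ (insert a U).powerset, (sgn (insert a U) v T) ^ 2 =
        ∑ T ∈ U.powerset, (2 * (sgn U v T) ^ 2 + 2 * v a ^ 2) := by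
      rw [Finset.sum_powerset_insert ha, ← Finset.sum_add_distrib]
      refine Finset.sum_congr rfl fun T hT => ?_
      rw [sgn_insert_left U v a ha T (Finset.mem_powerset.1 hT), sgn_insert_right U v a ha T]
      ring
    have e4 : ∑ T ∈ (insert a U).powerset, (sgn (insert a U) v T) ^ 4 =
        ∑ T ∈ U.powerset, (2 * (sgn U v T) ^ 4 + 12 * v a ^ 2 * (sgn U v T) ^ 2 + 2 * v a ^ 4) := by
      rw [Finset.sum_powerset_insert ha, ← Finset.sum_add_distrib]
      refine Finset.sum_congr rfl fun T hT => ?_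
      rw [sgn_insert_left U v a ha T (Finset.mem_powerset.1 hT), sgn_insert_right U v a ha T]
      ring
    rw [e2, e4, Finset.card_insert_of_notMem ha, Finset.sum_insert ha]
    constructor
    · rw [Finset.sum_add_distrib, ← Finset.mul_sum, ih2, Finset.sum_const, Finset.card_powerset,
        nsmul_eq_mul]
      push_cast
      ring
    · rw [Finset.sum_add_distrib, Finset.sum_add_distrib, ← Finset.mul_sum, ← Finset.mul_sum, ih2,
        Finset.sum_const, Finset.card_powerset, nsmul_eq_mul]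
      push_cast
      have hp : (0 : ℝ) ≤ 2 ^ U.card := by positivity
      have : 0 ≤ (2 : ℝ) ^ U.card * v a ^ 4 := by positivity
      have h1 : 2 * ∑ T ∈ U.powerset, sgn U v T ^ 4 ≤
          2 * (3 * 2 ^ U.card * (∑ i ∈ U, v i ^ 2) ^ 2) := by linarith
      calc 2 * ∑ T ∈ U.powerset, sgn U v T ^ 4 +
            12 * v a ^ 2 * (2 ^ U.card * ∑ i ∈ U, v i ^ 2) + 2 ^ U.card * (2 * v a ^ 4)
          ≤ 2 * (3 * 2 ^ U.card * (∑ i ∈ U, v i ^ 2) ^ 2) +
            12 * v a ^ 2 * (2 ^ U.card * ∑ i ∈ U, v i ^ 2) + 2 ^ U.card * (2 * v a ^ 4) := by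
            linarith
        _ ≤ 3 * 2 ^ (U.card + 1) * (v a ^ 2 + ∑ i ∈ U, v i ^ 2) ^ 2 := by
            have key : 3 * 2 ^ (U.card + 1) * (v a ^ 2 + ∑ i ∈ U, v i ^ 2) ^ 2 -
                (2 * (3 * 2 ^ U.card * (∑ i ∈ U, v i ^ 2) ^ 2) +
                12 * v a ^ 2 * (2 ^ U.card * ∑ i ∈ U, v i ^ 2) + 2 ^ U.card * (2 * v a ^ 4)) =
                4 * ((2 : ℝ) ^ U.card * v a ^ 4) := by
              ring
            linarith

/-- `|u| ≥ (3 √3 / 2) (u² / c - u⁴ / c³)` in a polynomial form. -/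
lemma abs_ge_poly (u c : ℝ) (hc : 0 < c) :
    (3 * Real.sqrt 3 / 2) * (u ^ 2 / c - u ^ 4 / c ^ 3) ≤ |u| := by
  have h3 : Real.sqrt 3 ^ 2 = 3 := Real.sq_sqrt (by norm_num)
  have h30 : 0 < Real.sqrt 3 := Real.sqrt_pos.2 (by norm_num)
  set w := |u| / c with hw
  have hw0 : 0 ≤ w := by positivity
  have h1 : u ^ 2 / c - u ^ 4 / c ^ 3 = c * (w ^ 2 - w ^ 4) := by
    have e1 : u ^ 2 = |u| ^ 2 := (sq_abs u).symm
    have e2 : u ^ 4 = |u| ^ 4 := by
      calc u ^ 4 = (u ^ 2) ^ 2 := by ring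
        _ = (|u| ^ 2) ^ 2 := by rw [e1]
        _ = |u| ^ 4 := by ring
    rw [e1, e2, hw]
    field_simp
  have h2 : |u| = c * w := by rw [hw]; field_simp
  rw [h1, h2]
  have h4 : (3 * Real.sqrt 3 / 2) * (w ^ 2 - w ^ 4) ≤ w := by
    -- w - (3√3/2)(w² - w⁴) = w (√3 w - 1)² (√3 w + 2) / 2
    have h5 : w - (3 * Real.sqrt 3 / 2) * (w ^ 2 - w ^ 4) =
        w * ((Real.sqrt 3 * w - 1) ^ 2 * (Real.sqrt 3 * w + 2)) / 2 := by
      have : Real.sqrt 3 ^ 3 = 3 * Real.sqrt 3 := by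
        calc Real.sqrt 3 ^ 3 = Real.sqrt 3 ^ 2 * Real.sqrt 3 := by ring
          _ = 3 * Real.sqrt 3 := by rw [h3]
      ring_nf
      rw [this]
      ring_nf
    have h6 : 0 ≤ w * ((Real.sqrt 3 * w - 1) ^ 2 * (Real.sqrt 3 * w + 2)) / 2 := by positivity
    linarith
  calc (3 * Real.sqrt 3 / 2) * (c * (w ^ 2 - w ^ 4))
      = c * ((3 * Real.sqrt 3 / 2) * (w ^ 2 - w ^ 4)) := by ring
    _ ≤ c * w := mul_le_mul_of_nonneg_left h4 hc.le

lemma khintchine {ι : Type} [DecidableEq ι] (U : Finset ι) (v : ι → ℝ) :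
    (2 ^ U.card / Real.sqrt 3) * Real.sqrt (∑ i ∈ U, v i ^ 2) ≤ ∑ T ∈ U.powerset, |sgn U v T| ∧
    ∑ T ∈ U.powerset, |sgn U v T| ≤ 2 ^ U.card * Real.sqrt (∑ i ∈ U, v i ^ 2) := by
  obtain ⟨m2, m4⟩ := moments U v
  set V := ∑ i ∈ U, v i ^ 2 with hV
  have hV0 : 0 ≤ V := Finset.sum_nonneg fun i _ => sq_nonneg _
  have hp : (0 : ℝ) < 2 ^ U.card := by positivity
  have h3 : Real.sqrt 3 ^ 2 = 3 := Real.sq_sqrt (by norm_num)
  have h30 : 0 < Real.sqrt 3 := Real.sqrt_pos.2 (by norm_num)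
  constructor
  · by_cases hV1 : V = 0
    · rw [hV1]; simp only [Real.sqrt_zero, mul_zero]
      exact Finset.sum_nonneg fun T _ => abs_nonneg _
    · have hVpos : 0 < V := lt_of_le_of_ne hV0 (Ne.symm hV1)
      set q := Real.sqrt V with hq
      have hq0 : 0 < q := Real.sqrt_pos.2 hVpos
      have hq2 : q ^ 2 = V := Real.sq_sqrt hV0
      have hc : 0 < 3 * q := by positivity
      have h1 : ∑ T ∈ U.powerset, (3 * Real.sqrt 3 / 2) *
          ((sgn U v T) ^ 2 / (3 * q) - (sgn U v T) ^ 4 / (3 * q) ^ 3) ≤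
          ∑ T ∈ U.powerset, |sgn U v T| :=
        Finset.sum_le_sum fun T _ => abs_ge_poly _ _ hc
      refine le_trans ?_ h1
      rw [← Finset.mul_sum, Finset.sum_sub_distrib, ← Finset.sum_div, ← Finset.sum_div, m2]
      have h2 : (∑ T ∈ U.powerset, sgn U v T ^ 4) / (3 * q) ^ 3 ≤
          (3 * 2 ^ U.card * V ^ 2) / (3 * q) ^ 3 := by
        apply div_le_div_of_nonneg_right m4
        positivity
      have h5 : (2 ^ U.card / Real.sqrt 3) * q = (3 * Real.sqrt 3 / 2) *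
          (2 ^ U.card * V / (3 * q) - (3 * 2 ^ U.card * V ^ 2) / (3 * q) ^ 3) := by
        rw [← hq2]
        field_simp
        rw [h3]
        ring
      rw [h5]
      apply mul_le_mul_of_nonneg_left _ (by positivity)
      linarith
  · have h1 : (∑ T ∈ U.powerset, |sgn U v T|) ^ 2 ≤ (2 ^ U.card) ^ 2 * V := by
      have h2 : (∑ T ∈ U.powerset, |sgn U v T|) ^ 2 ≤
          (U.powerset.card : ℝ) * ∑ T ∈ U.powerset, |sgn U v T| ^ 2 :=
        sq_sum_le_card_mul_sum_sq
      simp only [sq_abs] at h2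
      rw [m2, Finset.card_powerset] at h2
      push_cast at h2
      calc _ ≤ _ := h2
        _ = _ := by ring
    have h2 : (2 ^ U.card) ^ 2 * V = (2 ^ U.card * Real.sqrt V) ^ 2 := by
      rw [mul_pow, Real.sq_sqrt hV0]
    rw [h2] at h1
    exact (pow_le_pow_iff_left₀ (Finset.sum_nonneg fun T _ => abs_nonneg _) (by positivity)
      two_ne_zero).1 h1

end Pool.Agent.MP_12e089_an
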