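import Pool.Agent.MP_12e089_an.Defs

set_option linter.unusedSectionVars false

/-!
The Wasserstein distance of two uniform measures on `s`-point sets is the minimum over bijections.
-/

namespace Pool.Agent.MP_12e089_an

open Finset

variable {M : Type} [Fintype M] [DecidableEq M]

lemma sum_enum {s : ℕ} {T : Finset M} (e : Fin s → M) (he : Function.Injective e)
    (heT : ∀ y, y ∈ T ↔ ∃ i, e i = y) (g : M → ℝ) : ∑ i, g (e i) = ∑ y ∈ T, g y := by
  have hT : T = Finset.univ.map ⟨e, he⟩ := by
    ext y
    simp [heT]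
  rw [hT, Finset.sum_map]
  rfl

lemma W1_le {s : ℕ} (hs : 0 < s) (ρ : M → M → ℝ) (hρ : ∀ x y, 0 ≤ ρ x y) {S T : Finset M}
    (e f : Fin s → M) (he : Function.Injective e) (hf : Function.Injective f)
    (heS : ∀ y, y ∈ S ↔ ∃ i, e i = y) (hfT : ∀ y, y ∈ T ↔ ∃ i, f i = y)
    (σ : Equiv.Perm (Fin s)) :
    W1 ρ (unif s S) (unif s T) ≤ (1 / s) * ∑ i, ρ (e i) (f (σ i)) := by
  apply csInf_le
  · refine ⟨0, ?_⟩
    rintro c ⟨π, h0, -, -, rfl⟩
    exact Finset.sum_nonneg fun x _ => Finset.sum_nonneg fun y _ => mul_nonneg (h0 x y) (hρ x y)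
  · refine ⟨fun x y => ∑ i, if x = e i ∧ y = f (σ i) then 1 / (s : ℝ) else 0, ?_, ?_, ?_, ?_⟩
    · intro x y
      apply Finset.sum_nonneg
      intro i _
      split_ifs
      · positivity
      · exact le_refl _
    · intro x
      rw [Finset.sum_comm]
      have h1 : ∀ i, (∑ y, if x = e i ∧ y = f (σ i) then 1 / (s : ℝ) else 0) =
          if x = e i then 1 / (s : ℝ) else 0 := by
        intro i
        by_cases h : x = e i
        · simp [h]
        · simp [h]
      rw [Finset.sum_congr rfl fun i _ => h1 i]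
      unfold unif
      by_cases hx : x ∈ S
      · obtain ⟨i, hi⟩ := (heS x).1 hx
        rw [if_pos hx, Finset.sum_eq_single i]
        · rw [if_pos hi.symm]
        · intro j _ hj
          rw [if_neg]
          intro h
          exact hj (he (h.symm.trans hi.symm))
        · intro h; exact absurd (Finset.mem_univ _) h
      · rw [if_neg hx]
        apply Finset.sum_eq_zero
        intro i _
        rw [if_neg]
        intro h
        exact hx ((heS x).2 ⟨i, h.symm⟩)
    · intro y
      rw [Finset.sum_comm]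
      have h1 : ∀ i, (∑ x, if x = e i ∧ y = f (σ i) then 1 / (s : ℝ) else 0) =
          if y = f (σ i) then 1 / (s : ℝ) else 0 := by
        intro i
        by_cases h : y = f (σ i)
        · simp [h]
        · simp [h]
      rw [Finset.sum_congr rfl fun i _ => h1 i]
      unfold unif
      by_cases hy : y ∈ T
      · obtain ⟨i, hi⟩ := (hfT y).1 hy
        rw [if_pos hy, Finset.sum_eq_single (σ.symm i)]
        · rw [if_pos]; rw [Equiv.apply_symm_apply]; exact hi.symm
        · intro j _ hj
          rw [if_neg]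
          intro h
          apply hj
          rw [Equiv.eq_symm_apply]
          exact hf (h.symm.trans hi.symm)
        · intro h; exact absurd (Finset.mem_univ _) h
      · rw [if_neg hy]
        apply Finset.sum_eq_zero
        intro i _
        rw [if_neg]
        intro h
        exact hy ((hfT y).2 ⟨_, h.symm⟩)
    · have h1 : ∀ x y, (∑ i, if x = e i ∧ y = f (σ i) then 1 / (s : ℝ) else 0) * ρ x y =
          ∑ i, if x = e i then (if y = f (σ i) then 1 / (s : ℝ) * ρ x y else 0) else 0 := by
        intro x y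
        rw [Finset.sum_mul]
        refine Finset.sum_congr rfl fun i _ => ?_
        by_cases h : x = e i
        · by_cases h' : y = f (σ i)
          · simp [h, h']
          · simp [h']
        · simp [h]
      simp only [h1]
      rw [Finset.mul_sum]
      have h2 : ∑ x, ∑ y, ∑ i, (if x = e i then (if y = f (σ i) then 1 / (s : ℝ) * ρ x y else 0)
          else 0) = ∑ i, ∑ x, ∑ y, (if x = e i then (if y = f (σ i) then 1 / (s : ℝ) * ρ x y else 0)
          else 0) := by
        calc _ = ∑ x, ∑ i, ∑ y, (if x = e i then (if y = f (σ i) then 1 / (s : ℝ) * ρ x y else 0)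
            else 0) := Finset.sum_congr rfl fun x _ => Finset.sum_comm
          _ = _ := Finset.sum_comm
      rw [h2]
      refine Finset.sum_congr rfl fun i _ => ?_
      rw [Finset.sum_eq_single (e i)]
      · simp
      · intro x _ hx
        simp [hx]
      · intro h; exact absurd (Finset.mem_univ _) h

lemma exists_perm_le {s : ℕ} (hs : 0 < s) (ρ : M → M → ℝ) (hρ : ∀ x y, 0 ≤ ρ x y)
    {S T : Finset M} (e f : Fin s → M) (he : Function.Injective e) (hf : Function.Injective f)
    (heS : ∀ y, y ∈ S ↔ ∃ i, e i = y) (hfT : ∀ y, y ∈ T ↔ ∃ i, f i = y) :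
    ∃ σ : Equiv.Perm (Fin s),
      (1 / s) * ∑ i, ρ (e i) (f (σ i)) ≤ W1 ρ (unif s S) (unif s T) := by
  obtain ⟨σ₀, hσ₀⟩ := Finite.exists_min (fun σ : Equiv.Perm (Fin s) => ∑ i, ρ (e i) (f (σ i)))
  refine ⟨σ₀, ?_⟩
  have hspos : (0 : ℝ) < s := by exact_mod_cast hs
  -- the set of couplings is nonempty
  have hne : {c : ℝ | ∃ π : M → M → ℝ, (∀ x y, 0 ≤ π x y) ∧ (∀ x, ∑ y, π x y = unif s S x) ∧
      (∀ y, ∑ x, π x y = unif s T y) ∧ c = ∑ x, ∑ y, π x y * ρ x y}.Nonempty := by
    refine ⟨_, fun x y => unif s S x * unif s T y, ?_, ?_, ?_, rfl⟩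
    · intro x y
      have h1 : 0 ≤ unif s S x := by unfold unif; split_ifs <;> positivity
      have h2 : 0 ≤ unif s T y := by unfold unif; split_ifs <;> positivity
      positivity
    · intro x
      rw [← Finset.mul_sum]
      have h1 : ∑ y, unif s T y = 1 := by
        unfold unif
        rw [← Finset.sum_filter, Finset.filter_mem_eq_inter, Finset.univ_inter,
          ← sum_enum f hf hfT (fun _ => 1 / (s : ℝ))]
        simp only [Finset.sum_const, Finset.card_univ, Fintype.card_fin, nsmul_eq_mul]
        field_simp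
      rw [h1, mul_one]
    · intro y
      rw [← Finset.sum_mul]
      have h1 : ∑ x, unif s S x = 1 := by
        unfold unif
        rw [← Finset.sum_filter, Finset.filter_mem_eq_inter, Finset.univ_inter,
          ← sum_enum e he heS (fun _ => 1 / (s : ℝ))]
        simp only [Finset.sum_const, Finset.card_univ, Fintype.card_fin, nsmul_eq_mul]
        field_simp
      rw [h1, one_mul]
  apply le_csInf
  · exact hne
  rintro c ⟨π, h0, hrow, hcol, rfl⟩
  -- entries outside vanish
  have hcol0 : ∀ x y, y ∉ T → π x y = 0 := by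
    intro x y hy
    have h1 := hcol y
    rw [unif, if_neg hy, Finset.sum_eq_zero_iff_of_nonneg (fun x _ => h0 x y)] at h1
    exact h1 x (Finset.mem_univ _)
  have hrow0 : ∀ x y, x ∉ S → π x y = 0 := by
    intro x y hx
    have h1 := hrow x
    rw [unif, if_neg hx, Finset.sum_eq_zero_iff_of_nonneg (fun y _ => h0 x y)] at h1
    exact h1 y (Finset.mem_univ _)
  let A : Matrix (Fin s) (Fin s) ℝ := fun i j => s * π (e i) (f j)
  have hA : A ∈ doublyStochastic ℝ (Fin s) := by
    rw [mem_doublyStochastic_iff_sum]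
    refine ⟨fun i j => mul_nonneg hspos.le (h0 _ _), ?_, ?_⟩
    · intro i
      simp only [A]
      rw [← Finset.mul_sum, sum_enum f hf hfT (fun y => π (e i) y)]
      have h1 : ∑ y ∈ T, π (e i) y = ∑ y, π (e i) y :=
        Finset.sum_subset (Finset.subset_univ _) fun y _ hy => hcol0 _ _ hy
      rw [h1, hrow, unif, if_pos ((heS _).2 ⟨i, rfl⟩)]
      field_simp
    · intro j
      simp only [A]
      rw [← Finset.mul_sum, sum_enum e he heS (fun x => π x (f j))]
      have h1 : ∑ x ∈ S, π x (f j) = ∑ x, π x (f j) :=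
        Finset.sum_subset (Finset.subset_univ _) fun x _ hx => hrow0 _ _ hx
      rw [h1, hcol, unif, if_pos ((hfT _).2 ⟨j, rfl⟩)]
      field_simp
  obtain ⟨w, hw0, hw1, hwA⟩ := exists_eq_sum_perm_of_mem_doublyStochastic hA
  have hcost : ∑ x, ∑ y, π x y * ρ x y = ∑ i, ∑ j, π (e i) (f j) * ρ (e i) (f j) := by
    rw [sum_enum e he heS (fun x => ∑ j, π x (f j) * ρ x (f j))]
    rw [← Finset.sum_subset (Finset.subset_univ S) (fun x _ hx => by
      apply Finset.sum_eq_zero
      intro y _
      rw [hrow0 x y hx, zero_mul])]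
    refine Finset.sum_congr rfl fun x _ => ?_
    rw [sum_enum f hf hfT (fun y => π x y * ρ x y)]
    exact (Finset.sum_subset (Finset.subset_univ T) (fun y _ hy => by
      rw [hcol0 x y hy, zero_mul])).symm
  rw [hcost]
  have hentry : ∀ i j, π (e i) (f j) = (1 / s) * ∑ σ : Equiv.Perm (Fin s),
      w σ * (if σ i = j then 1 else 0) := by
    intro i j
    have h1 : A i j = ∑ σ : Equiv.Perm (Fin s), w σ * (if σ i = j then 1 else 0) := by
      rw [← hwA, Matrix.sum_apply]
      refine Finset.sum_congr rfl fun σ _ => ?_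
      rw [Matrix.smul_apply, smul_eq_mul]
      simp [Equiv.Perm.permMatrix, PEquiv.toMatrix_apply, Equiv.toPEquiv_apply, eq_comm]
    rw [← h1]
    simp only [A]
    field_simp
  have hsum : ∑ i, ∑ j, π (e i) (f j) * ρ (e i) (f j) =
      (1 / s) * ∑ σ : Equiv.Perm (Fin s), w σ * ∑ i, ρ (e i) (f (σ i)) := by
    calc ∑ i, ∑ j, π (e i) (f j) * ρ (e i) (f j)
        = ∑ i, ∑ j, ∑ σ : Equiv.Perm (Fin s),
            (1 / s) * (w σ * ((if σ i = j then 1 else 0) * ρ (e i) (f j))) := by
          refine Finset.sum_congr rfl fun i _ => Finset.sum_congr rfl fun j _ => ?_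
          rw [hentry, mul_assoc, Finset.sum_mul, Finset.mul_sum]
          refine Finset.sum_congr rfl fun σ _ => ?_
          ring
      _ = ∑ σ : Equiv.Perm (Fin s), ∑ i, ∑ j,
            (1 / s) * (w σ * ((if σ i = j then 1 else 0) * ρ (e i) (f j))) := by
          calc _ = ∑ i, ∑ σ : Equiv.Perm (Fin s), ∑ j,
                (1 / s) * (w σ * ((if σ i = j then 1 else 0) * ρ (e i) (f j))) :=
                Finset.sum_congr rfl fun i _ => Finset.sum_comm
            _ = _ := Finset.sum_comm
      _ = _ := by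
          rw [Finset.mul_sum]
          refine Finset.sum_congr rfl fun σ _ => ?_
          rw [Finset.mul_sum, Finset.mul_sum]
          refine Finset.sum_congr rfl fun i _ => ?_
          rw [Finset.sum_eq_single (σ i)]
          · simp
          · intro j _ hj
            rw [if_neg (Ne.symm hj)]; ring
          · intro h; exact absurd (Finset.mem_univ _) h
  rw [hsum]
  apply mul_le_mul_of_nonneg_left _ (by positivity)
  calc ∑ i, ρ (e i) (f (σ₀ i)) = ∑ σ : Equiv.Perm (Fin s), w σ * ∑ i, ρ (e i) (f (σ₀ i)) := by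
        rw [← Finset.sum_mul, hw1, one_mul]
    _ ≤ _ := Finset.sum_le_sum fun σ _ => mul_le_mul_of_nonneg_left (hσ₀ σ) (hw0 σ)

end Pool.Agent.MP_12e089_an
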