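import Mathlib

/-!
Definitions: the grid with its two metrics, the Wasserstein-1 distance, uniform measures on
`s`-point subsets, and the least distortion of an embedding into `L_1`.
-/

namespace Pool.Agent.MP_12e089_an

/-- The grid `{1, …, Δ}^d` (coordinates are indexed by `Fin Δ`, i.e. shifted by one, which does
not change differences of coordinates). -/
abbrev Grid (Δ d : ℕ) : Type := Fin d → Fin Δ

/-- The `ℓ_1` metric on the grid. -/
noncomputable def rho1 {Δ d : ℕ} (x y : Grid Δ d) : ℝ :=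
  ∑ i, |((x i : ℕ) : ℝ) - ((y i : ℕ) : ℝ)|

/-- The `ℓ_2` metric on the grid. -/
noncomputable def rho2 {Δ d : ℕ} (x y : Grid Δ d) : ℝ :=
  Real.sqrt (∑ i, (((x i : ℕ) : ℝ) - ((y i : ℕ) : ℝ)) ^ 2)

/-- The Wasserstein-1 distance of two measures (given by their weights) on a finite set with
metric `ρ`: the infimum over couplings of the transportation cost. -/
noncomputable def W1 {M : Type} [Fintype M] (ρ : M → M → ℝ) (μ ν : M → ℝ) : ℝ :=
  sInf {c : ℝ | ∃ π : M → M → ℝ, (∀ x y, 0 ≤ π x y) ∧ (∀ x, ∑ y, π x y = μ x) ∧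
    (∀ y, ∑ x, π x y = ν y) ∧ c = ∑ x, ∑ y, π x y * ρ x y}

/-- The measure `(1/s) ∑_{x ∈ S} δ_x`. -/
noncomputable def unif {M : Type} [DecidableEq M] (s : ℕ) (S : Finset M) : M → ℝ :=
  fun x => if x ∈ S then 1 / (s : ℝ) else 0

/-- The set `Y(Δ, d, s)` of the measures `(1/s) ∑_{x ∈ S} δ_x` with `S` of size `s`. -/
def Y (Δ d s : ℕ) : Type :=
  {μ : Grid Δ d → ℝ // ∃ S : Finset (Grid Δ d), S.card = s ∧ μ = unif s S}

/-- The Banach space `L_1 = L_1([0, 1])`. -/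
abbrev L1 : Type :=
  MeasureTheory.Lp ℝ 1 (MeasureTheory.volume.restrict (Set.Icc (0 : ℝ) 1))

/-- `(X, ρ)` embeds into `L_1` with distortion at most `D`. -/
def EmbedsL1 {X : Type} (ρ : X → X → ℝ) (D : ℝ) : Prop :=
  1 ≤ D ∧ ∃ (f : X → L1) (r : ℝ), 0 < r ∧
    ∀ x y, r * ρ x y ≤ ‖f x - f y‖ ∧ ‖f x - f y‖ ≤ D * r * ρ x y

/-- The `L_1` distortion `c_1(X)`. -/
noncomputable def c1 {X : Type} (ρ : X → X → ℝ) : ℝ := sInf {D : ℝ | EmbedsL1 ρ D}

end Pool.Agent.MP_12e089_an
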