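import Pool.Agent.MP_12e089_an.Enc
import Pool.Agent.MP_12e089_an.Wass
import Pool.Agent.MP_12e089_an.LOne

set_option linter.unusedSectionVars false

namespace Pool.Agent.MP_12e089_an

open Finset

/-- Letters: the incidence vector of a coordinate with the `s` points. -/
def Letter (s : ℕ) : Type := Fin s → Bool

instance (s : ℕ) : Fintype (Letter s) := inferInstanceAs (Fintype (Fin s → Bool))
instance (s : ℕ) : DecidableEq (Letter s) := inferInstanceAs (DecidableEq (Fin s → Bool))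

instance (s : ℕ) : MulAction (Equiv.Perm (Fin s)) (Letter s) where
  smul σ a := fun i => a (σ⁻¹ i)
  one_smul a := rfl
  mul_smul σ τ a := by
    funext i
    change a ((σ * τ)⁻¹ i) = a (τ⁻¹ (σ⁻¹ i))
    rw [mul_inv_rev]
    rfl

lemma letter_smul {s : ℕ} (σ : Equiv.Perm (Fin s)) (a : Letter s) (i : Fin s) :
    (σ • a) i = a (σ⁻¹ i) := rfl

/-- The zero letter. -/
def zeroL (s : ℕ) : Letter s := fun _ => false

lemma smul_zeroL {s : ℕ} (σ : Equiv.Perm (Fin s)) : σ • zeroL s = zeroL s := rfl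

/-- The enumeration of a finite set. -/
lemma exists_enum {M : Type} [DecidableEq M] {s : ℕ} {S : Finset M} (hS : S.card = s) :
    ∃ e : Fin s → M, Function.Injective e ∧ ∀ y, y ∈ S ↔ ∃ i, e i = y := by
  refine ⟨fun i => ((S.equivFinOfCardEq hS).symm i : M), ?_, ?_⟩
  · intro i j h
    exact (S.equivFinOfCardEq hS).symm.injective (Subtype.ext h)
  · intro y
    constructor
    · intro hy
      exact ⟨S.equivFinOfCardEq hS ⟨y, hy⟩, by simp⟩
    · rintro ⟨i, rfl⟩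
      exact ((S.equivFinOfCardEq hS).symm i).2

lemma ham_le_of_imp' {Ω B B' : Type} [Fintype Ω] [DecidableEq B] [DecidableEq B']
    {X Y : Ω → B'} {X' Y' : Ω → B}
    (h : ∀ w, X w = Y w → X' w = Y' w) : hammingDist X' Y' ≤ hammingDist X Y := by
  unfold hammingDist
  apply Finset.card_le_card
  intro w hw
  simp only [Finset.mem_filter, Finset.mem_univ, true_and] at hw ⊢
  exact fun h1 => hw (h w h1)

theorem embed_main {s : ℕ} (hs : 0 < s) {C : ℝ} (hC : 1 ≤ C)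
    (hgood : Good (G := Equiv.Perm (Fin s)) ⊤ (zeroL s) C)
    {M : Type} [Fintype M] [DecidableEq M] (ρ : M → M → ℝ) (hρ : ∀ x y, 0 ≤ ρ x y)
    {Ω : Type} [Fintype Ω] (en : M → Ω → Bool) {K : ℝ} (hK : 0 < K)
    (h1 : ∀ x y, K * ρ x y ≤ hammingDist (en x) (en y))
    (h2 : ∀ x y, (hammingDist (en x) (en y) : ℝ) ≤ 2 * K * ρ x y) :
    EmbedsL1 (fun μ ν : {μ : M → ℝ // ∃ S : Finset M, S.card = s ∧ μ = unif s S} =>
      W1 ρ μ.1 ν.1) (2 * C ^ 2 * s) := by
  have hs1 : (1 : ℝ) ≤ s := by exact_mod_cast hs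
  refine ⟨by nlinarith, ?_⟩
  obtain ⟨I, hI, F, hinv, -, hlip, hlow⟩ := hgood Ω
  obtain ⟨E, hE⟩ := exists_toLOne I
  have hch : ∀ μ : {μ : M → ℝ // ∃ S : Finset M, S.card = s ∧ μ = unif s S},
      ∃ (S : Finset M) (e : Fin s → M), μ.1 = unif s S ∧ Function.Injective e ∧
        ∀ y, y ∈ S ↔ ∃ i, e i = y := by
    rintro ⟨μ, S, hS, hμ⟩
    obtain ⟨e, he, heS⟩ := exists_enum hS
    exact ⟨S, e, hμ, he, heS⟩
  choose S e hμ he heS using hch
  let X : {μ : M → ℝ // ∃ S : Finset M, S.card = s ∧ μ = unif s S} → Ω → Letter s :=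
    fun μ w i => en (e μ i) w
  refine ⟨fun μ => E (F (X μ)), K / C, by positivity, fun μ ν => ?_⟩
  rw [hE]
  constructor
  · obtain ⟨h, -, hh⟩ := hlow (X μ) (X ν)
    have e1 : W1 ρ μ.1 ν.1 ≤ (1 / s) * ∑ i, ρ (e μ i) (e ν (h⁻¹ i)) := by
      rw [hμ μ, hμ ν]
      exact W1_le hs ρ hρ (e μ) (e ν) (he μ) (he ν) (heS μ) (heS ν) h⁻¹
    have e2 : ∀ i, K * ρ (e μ i) (e ν (h⁻¹ i)) ≤ hammingDist (X μ) (h • X ν) := by
      intro i
      refine (h1 _ _).trans (Nat.cast_le.2 ?_)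
      apply ham_le_of_imp'
      intro w hw
      have := congrFun hw i
      exact this
    have e3 : K * W1 ρ μ.1 ν.1 ≤ hammingDist (X μ) (h • X ν) := by
      calc K * W1 ρ μ.1 ν.1 ≤ K * ((1 / s) * ∑ i, ρ (e μ i) (e ν (h⁻¹ i))) :=
            mul_le_mul_of_nonneg_left e1 hK.le
        _ = (1 / s) * ∑ i, K * ρ (e μ i) (e ν (h⁻¹ i)) := by
            rw [← Finset.mul_sum]; ring
        _ ≤ (1 / s) * ∑ i : Fin s, (hammingDist (X μ) (h • X ν) : ℝ) :=
            mul_le_mul_of_nonneg_left (Finset.sum_le_sum fun i _ => e2 i) (by positivity)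
        _ = hammingDist (X μ) (h • X ν) := by
            rw [Finset.sum_const, Finset.card_univ, Fintype.card_fin, nsmul_eq_mul]
            have : (s : ℝ) ≠ 0 := by positivity
            field_simp
    calc K / C * W1 ρ μ.1 ν.1 = (1 / C) * (K * W1 ρ μ.1 ν.1) := by ring
      _ ≤ (1 / C) * (C * l1 (F (X μ)) (F (X ν))) :=
          mul_le_mul_of_nonneg_left (e3.trans hh) (by positivity)
      _ = l1 (F (X μ)) (F (X ν)) := by field_simp
  · obtain ⟨σ, hσ⟩ := exists_perm_le hs ρ hρ (S := S μ) (T := S ν) (e μ) (e ν) (he μ) (he ν)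
      (heS μ) (heS ν)
    rw [← hμ μ, ← hμ ν] at hσ
    have e1 : l1 (F (X μ)) (F (X ν)) ≤ C * hammingDist (X μ) (σ⁻¹ • X ν) := by
      rw [← hinv σ⁻¹ trivial (X ν)]
      exact hlip _ _
    have e2 : (hammingDist (X μ) (σ⁻¹ • X ν) : ℝ) ≤
        ∑ i, (hammingDist (en (e μ i)) (en (e ν (σ i))) : ℝ) := by
      have : hammingDist (X μ) (σ⁻¹ • X ν) ≤
          ∑ i, hammingDist (en (e μ i)) (en (e ν (σ i))) := by
        classical
        unfold hammingDist
        refine le_trans (Finset.card_le_card ?_) Finset.card_biUnion_le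
        intro w hw
        simp only [Finset.mem_filter, Finset.mem_univ, true_and, Finset.mem_biUnion] at hw ⊢
        by_contra hcon
        push Not at hcon
        apply hw
        funext i
        exact hcon i
      exact_mod_cast this
    have e3 : ∑ i, (hammingDist (en (e μ i)) (en (e ν (σ i))) : ℝ) ≤
        2 * K * ∑ i, ρ (e μ i) (e ν (σ i)) := by
      rw [Finset.mul_sum]
      exact Finset.sum_le_sum fun i _ => h2 _ _
    have e4 : ∑ i, ρ (e μ i) (e ν (σ i)) ≤ s * W1 ρ μ.1 ν.1 := by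
      have hspos : (0 : ℝ) < s := by linarith
      have := mul_le_mul_of_nonneg_left hσ hspos.le
      calc ∑ i, ρ (e μ i) (e ν (σ i)) = s * ((1 / s) * ∑ i, ρ (e μ i) (e ν (σ i))) := by
            field_simp
        _ ≤ _ := this
    calc l1 (F (X μ)) (F (X ν)) ≤ C * hammingDist (X μ) (σ⁻¹ • X ν) := e1
      _ ≤ C * (2 * K * (s * W1 ρ μ.1 ν.1)) := by
          apply mul_le_mul_of_nonneg_left _ (by linarith)
          exact (e2.trans e3).trans (mul_le_mul_of_nonneg_left e4 (by positivity))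
      _ = 2 * C ^ 2 * s * (K / C) * W1 ρ μ.1 ν.1 := by
          field_simp

/-! ### The two metrics on the grid -/

lemma rho1_nonneg {Δ d : ℕ} (x y : Grid Δ d) : 0 ≤ rho1 x y :=
  Finset.sum_nonneg fun _ _ => abs_nonneg _

lemma rho2_nonneg {Δ d : ℕ} (x y : Grid Δ d) : 0 ≤ rho2 x y := Real.sqrt_nonneg _

lemma enc1 (Δ d : ℕ) (x y : Grid Δ d) :
    (hammingDist (enc Δ (fun (i : Fin d) (x : Grid Δ d) => (x i : ℕ)) x)
      (enc Δ (fun (i : Fin d) (x : Grid Δ d) => (x i : ℕ)) y) : ℝ) = rho1 x y := by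
  rw [ham_enc]
  · rfl
  · intro i x
    exact (x i).2.le

/-- The shifted signed coordinate sums. -/
def phi2 (Δ d : ℕ) (T : Finset (Fin d)) (x : Grid Δ d) : ℕ :=
  ∑ i, if i ∈ T then Δ + (x i : ℕ) else Δ - (x i : ℕ)

lemma phi2_le (Δ d : ℕ) (T : Finset (Fin d)) (x : Grid Δ d) : phi2 Δ d T x ≤ d * (2 * Δ) := by
  unfold phi2
  calc _ ≤ ∑ _i : Fin d, 2 * Δ := by
        refine Finset.sum_le_sum fun i _ => ?_
        have := (x i).2
        split_ifs <;> omega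
    _ = d * (2 * Δ) := by simp

lemma phi2_sub (Δ d : ℕ) (T : Finset (Fin d)) (x y : Grid Δ d) :
    (phi2 Δ d T x : ℝ) - phi2 Δ d T y =
      sgn Finset.univ (fun i => ((x i : ℕ) : ℝ) - ((y i : ℕ) : ℝ)) T := by
  unfold phi2 sgn
  push_cast
  rw [← Finset.sum_sub_distrib]
  refine Finset.sum_congr rfl fun i _ => ?_
  have hx := (x i).2
  have hy := (y i).2
  split_ifs
  · ring
  · rw [Nat.cast_sub hx.le, Nat.cast_sub hy.le]; ring

lemma enc2 (Δ d : ℕ) (x y : Grid Δ d) :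
    (hammingDist (enc (d * (2 * Δ)) (phi2 Δ d) x) (enc (d * (2 * Δ)) (phi2 Δ d) y) : ℝ) =
      ∑ T ∈ (Finset.univ : Finset (Fin d)).powerset,
        |sgn Finset.univ (fun i => ((x i : ℕ) : ℝ) - ((y i : ℕ) : ℝ)) T| := by
  rw [ham_enc _ _ (fun T x => phi2_le Δ d T x), Finset.powerset_univ]
  refine Finset.sum_congr rfl fun T _ => ?_
  rw [phi2_sub]

lemma enc2_bounds (Δ d : ℕ) (x y : Grid Δ d) :
    (2 ^ d / Real.sqrt 3) * rho2 x y ≤
      hammingDist (enc (d * (2 * Δ)) (phi2 Δ d) x) (enc (d * (2 * Δ)) (phi2 Δ d) y) ∧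
    (hammingDist (enc (d * (2 * Δ)) (phi2 Δ d) x) (enc (d * (2 * Δ)) (phi2 Δ d) y) : ℝ) ≤
      2 * (2 ^ d / Real.sqrt 3) * rho2 x y := by
  have hk := khintchine (Finset.univ : Finset (Fin d))
    (fun i => ((x i : ℕ) : ℝ) - ((y i : ℕ) : ℝ))
  rw [enc2]
  rw [Finset.card_univ, Fintype.card_fin] at hk
  refine ⟨hk.1, hk.2.trans ?_⟩
  have h3 : Real.sqrt 3 ≤ 2 := by
    rw [Real.sqrt_le_left (by norm_num)]
    norm_num
  have h30 : 0 < Real.sqrt 3 := Real.sqrt_pos.2 (by norm_num)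
  have h4 : (2 : ℝ) ^ d ≤ 2 * (2 ^ d / Real.sqrt 3) := by
    rw [← mul_div_assoc, le_div_iff₀ h30]
    have : (0 : ℝ) < 2 ^ d := by positivity
    nlinarith
  exact mul_le_mul_of_nonneg_right h4 (Real.sqrt_nonneg _)

lemma c1_le {X : Type} {ρ : X → X → ℝ} {D : ℝ} (h : EmbedsL1 ρ D) : c1 ρ ≤ D := by
  apply csInf_le
  · exact ⟨1, fun D hD => hD.1⟩
  · exact h

/-- The uniform bound. -/
theorem uniform_bound : ∃ f : ℕ → ℝ, ∀ Δ d s : ℕ, 1 ≤ s →
    EmbedsL1 (fun μ ν : Y Δ d s => W1 rho1 μ.1 ν.1) (f s) ∧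
    EmbedsL1 (fun μ ν : Y Δ d s => W1 rho2 μ.1 ν.1) (f s) := by
  classical
  have h : ∀ s : ℕ, ∃ C : ℝ, 1 ≤ C ∧ Good (G := Equiv.Perm (Fin s)) ⊤ (zeroL s) C := fun s =>
    exists_good (zeroL s) smul_zeroL ⊤
  choose C hC hg using h
  refine ⟨fun s => 2 * C s ^ 2 * s, fun Δ d s hs => ⟨?_, ?_⟩⟩
  · exact embed_main hs (hC s) (hg s) rho1 rho1_nonneg
      (enc Δ (fun (i : Fin d) (x : Grid Δ d) => (x i : ℕ))) one_pos
      (fun x y => by rw [enc1]; linarith [rho1_nonneg x y])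
      (fun x y => by rw [enc1]; linarith [rho1_nonneg x y])
  · exact embed_main hs (hC s) (hg s) rho2 rho2_nonneg
      (enc (d * (2 * Δ)) (phi2 Δ d)) (K := 2 ^ d / Real.sqrt 3) (by positivity)
      (fun x y => (enc2_bounds Δ d x y).1) (fun x y => (enc2_bounds Δ d x y).2)

end Pool.Agent.MP_12e089_an
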